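import Mathlib

/-!
Core argument: a linear recurrence argument in a domain with two commuting elements `t1, t2`
acting locally ad-nilpotently.
-/

namespace Q8.WF

variable {A : Type*} [Ring A]

/-- `ad t x = t x - x t` as an additive map. -/
def ad (t : A) (x : A) : A := t * x - x * t

lemma ad_add (t x y : A) : ad t (x + y) = ad t x + ad t y := by
  simp only [ad, mul_add, add_mul]; abel

lemma ad_zero (t : A) : ad t (0 : A) = 0 := by simp [ad]

lemma ad_neg (t x : A) : ad t (-x) = - ad t x := by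
  simp only [ad, mul_neg, neg_mul, neg_sub]
  abel

lemma ad_mul (t x y : A) : ad t (x * y) = ad t x * y + x * ad t y := by
  simp only [ad]; noncomm_ring

lemma ad_nsmul (t x : A) (n : ℕ) : ad t (n • x) = n • ad t x := by
  simp only [ad, mul_smul_comm, smul_mul_assoc, smul_sub]

lemma adn_zero (t : A) (n : ℕ) : (ad t)^[n] (0 : A) = 0 := by
  induction n with
  | zero => rfl
  | succ n ih => rw [Function.iterate_succ_apply', ih, ad_zero]

lemma adn_add (t x y : A) (n : ℕ) : (ad t)^[n] (x + y) = (ad t)^[n] x + (ad t)^[n] y := by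
  induction n with
  | zero => rfl
  | succ n ih => simp only [Function.iterate_succ_apply', ih, ad_add]

lemma adn_nsmul (t x : A) (n m : ℕ) : (ad t)^[n] (m • x) = m • (ad t)^[n] x := by
  induction n with
  | zero => rfl
  | succ n ih => simp only [Function.iterate_succ_apply', ih, ad_nsmul]

lemma adn_mul_left (t a b : A) (h : ad t a = 0) (n : ℕ) :
    (ad t)^[n] (a * b) = a * (ad t)^[n] b := by
  induction n with
  | zero => rfl
  | succ n ih => simp only [Function.iterate_succ_apply', ih, ad_mul, h, zero_mul, zero_add]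

lemma adn_mul_right (t a b : A) (h : ad t b = 0) (n : ℕ) :
    (ad t)^[n] (a * b) = (ad t)^[n] a * b := by
  induction n with
  | zero => rfl
  | succ n ih => simp only [Function.iterate_succ_apply', ih, ad_mul, h, mul_zero, add_zero]

lemma adn_eq_zero_of_le (t a : A) {m n : ℕ} (h : (ad t)^[m] a = 0) (hmn : m ≤ n) :
    (ad t)^[n] a = 0 := by
  obtain ⟨k, rfl⟩ := Nat.exists_eq_add_of_le hmn
  rw [add_comm, Function.iterate_add_apply, h, adn_zero]

/-- leading term of a product -/
lemma adn_mul_top (t : A) : ∀ (m n : ℕ) (a b : A), (ad t)^[m + 1] a = 0 → (ad t)^[n + 1] b = 0 →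
    (ad t)^[m + n] (a * b) = (m + n).choose m • ((ad t)^[m] a * (ad t)^[n] b) := by
  intro m
  induction m with
  | zero =>
    intro n a b ha hb
    have ha' : ad t a = 0 := by simpa using ha
    simp [adn_mul_left t a b ha']
  | succ m ihm =>
    intro n
    induction n with
    | zero =>
      intro a b ha hb
      have hb' : ad t b = 0 := by simpa using hb
      simp [adn_mul_right t a b hb']
    | succ n ihn =>
      intro a b ha hb
      have e1 : (ad t)^[m + 1 + (n + 1)] (a * b) =
          (ad t)^[m + (n + 1)] (ad t a * b) + (ad t)^[m + 1 + n] (a * ad t b) := by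
        rw [show m + 1 + (n + 1) = (m + 1 + n) + 1 by ring, Function.iterate_succ_apply, ad_mul,
          adn_add, show m + 1 + n = m + (n + 1) by ring]
      rw [e1, ihm (n + 1) (ad t a) b (by simpa [Function.iterate_succ_apply] using ha) hb,
        ihn a (ad t b) ha (by simpa [Function.iterate_succ_apply] using hb)]
      rw [← Function.iterate_succ_apply, ← Function.iterate_succ_apply]
      rw [show m + 1 + (n + 1) = (m + (n + 1)) + 1 by ring, Nat.choose_succ_succ, add_smul,
        show m + 1 + n = m + (n + 1) by ring]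

lemma adn_mul_zero (t : A) (m n : ℕ) (a b : A) (ha : (ad t)^[m] a = 0) (hb : (ad t)^[n] b = 0) :
    (ad t)^[m + n] (a * b) = 0 := by
  rcases m with _ | m
  · have : a = 0 := ha
    simp [this, adn_zero]
  rcases n with _ | n
  · have : b = 0 := hb
    simp [this, adn_zero]
  have h := adn_mul_top t m n a b ha hb
  have h2 : (ad t)^[m + n + 1] (a * b) = 0 := by
    rw [Function.iterate_succ_apply', h, ad_nsmul, ad_mul, ← Function.iterate_succ_apply' (ad t),
      ← Function.iterate_succ_apply' (ad t), ha, hb]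
    simp
  exact adn_eq_zero_of_le t _ h2 (by omega)

lemma exists_top (t a : A) (ha : a ≠ 0) (h : ∃ n, (ad t)^[n] a = 0) :
    ∃ e, (ad t)^[e] a ≠ 0 ∧ (ad t)^[e + 1] a = 0 := by
  classical
  have h0 : Nat.find h ≠ 0 := by
    intro h0
    have := Nat.find_spec h
    rw [h0] at this
    exact ha this
  obtain ⟨e, he⟩ := Nat.exists_eq_succ_of_ne_zero h0
  refine ⟨e, Nat.find_min h (by omega), ?_⟩
  have := Nat.find_spec h
  rwa [he] at this

/-- If `x t = T x` with `x ≠ 0` in a domain of characteristic zero where `ad t` is locally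
nilpotent, then `T = t`. -/
lemma eq_of_mul_eq [NoZeroDivisors A] [CharZero A] (t T x : A) (hx : x ≠ 0)
    (hxn : ∃ n, (ad t)^[n] x = 0) (hTn : ∃ n, (ad t)^[n] T = 0) (h : x * t = T * x) : T = t := by
  obtain ⟨e, he, he1⟩ := exists_top t x hx hxn
  by_cases hT : T = 0
  · subst hT
    have : x * t = 0 := by rw [h, zero_mul]
    rcases mul_eq_zero.1 this with h1 | h1
    · exact absurd h1 hx
    · exact h1.symm
  obtain ⟨d, hd, hd1⟩ := exists_top t T hT hTn
  have htt : ad t t = 0 := by simp [ad]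
  rcases d with _ | d
  · have hT0 : ad t T = 0 := by simpa using hd1
    have h1 : (T - t) * x = - ad t x := by
      simp only [ad, sub_mul, ← h]; abel
    have hTt : ad t (T - t) = 0 := by
      have : ad t T = ad t (T - t) + ad t t := by rw [← ad_add]; simp
      rw [htt, add_zero] at this
      rw [← this, hT0]
    have h2 : (T - t) * (ad t)^[e] x = 0 := by
      rw [← adn_mul_left t _ _ hTt, h1]
      have h3 : - ad t x + ad t x = 0 := by simp
      have h4 : (ad t)^[e] (- ad t x) + (ad t)^[e] (ad t x) = 0 := by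
        rw [← adn_add, h3, adn_zero]
      rw [← Function.iterate_succ_apply, he1, add_zero] at h4
      exact h4
    rcases mul_eq_zero.1 h2 with h5 | h5
    · exact sub_eq_zero.1 h5
    · exact absurd h5 he
  · exfalso
    have h1 := adn_mul_top t (d + 1) e T x hd1 he1
    have h2 : (ad t)^[d + 1 + e] (x * t) = 0 := by
      rw [adn_mul_right t x t htt, adn_eq_zero_of_le t x he1 (by omega), zero_mul]
    rw [← h, h2] at h1
    have h3 : ((d + 1 + e).choose (d + 1) : A) * ((ad t)^[d + 1] T * (ad t)^[e] x) = 0 := by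
      rw [← nsmul_eq_mul, ← h1]
    rcases mul_eq_zero.1 h3 with h4 | h4
    · have : (d + 1 + e).choose (d + 1) = 0 := by exact_mod_cast h4
      exact absurd this (Nat.choose_pos (by omega)).ne'
    · rcases mul_eq_zero.1 h4 with h5 | h5
      · exact hd h5
      · exact he h5

/-- the operator `S - T` on sequences -/
def Phi (T : A) : Module.End ℤ (ℕ → A) where
  toFun s n := s (n + 1) - T * s n
  map_add' s s' := by
    ext n
    simp only [Pi.add_apply, mul_add]
    abel
  map_smul' c s := by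
    ext n
    simp only [Pi.smul_apply, RingHom.id_apply, smul_sub, mul_smul_comm]

@[simp] lemma Phi_apply (T : A) (s : ℕ → A) (n : ℕ) : Phi T s n = s (n + 1) - T * s n := rfl

lemma Phi_comm (T T' : A) (h : T * T' = T' * T) : Commute (Phi T) (Phi T') := by
  apply LinearMap.ext
  intro s
  ext n
  simp only [Module.End.mul_apply, Phi_apply, mul_sub]
  rw [← mul_assoc, ← mul_assoc, h]
  abel

lemma Phi_choose (T V : A) (k : ℕ) :
    (Phi T ^ (k + 1)) (fun n => (n.choose k : A) * (T ^ (n - k) * V)) = 0 := by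
  induction k with
  | zero =>
    ext n
    simp [pow_succ', mul_assoc]
  | succ k ih =>
    rw [pow_succ, Module.End.mul_apply]
    convert ih using 2
    ext n
    simp only [Phi_apply]
    rw [show n + 1 - (k + 1) = n - k by omega, Nat.choose_succ_succ]
    have hc : ∀ c : ℕ, (c : A) * T = T * c := fun c => Nat.cast_commute c T
    by_cases hkn : k + 1 ≤ n
    · obtain ⟨m, rfl⟩ := Nat.exists_eq_add_of_le hkn
      rw [show k + 1 + m - k = m + 1 by omega, show k + 1 + m - (k + 1) = m by omega]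
      push_cast
      rw [pow_succ']
      rw [← mul_assoc T ((k + 1 + m).choose (k + 1) : A), ← hc]
      noncomm_ring
    · have h0 : n.choose (k + 1) = 0 := Nat.choose_eq_zero_of_lt (by omega)
      simp [h0]

/-- Given commuting `T j` and sequences `s j` killed by powers of `Phi (T j)`, there is one
element of the monoid generated by the `Phi (T j)` killing all the `s j`. -/
lemma exists_kill {ι : Type*} (T : ι → A) (hT : ∀ i j, T i * T j = T j * T i)
    (s : ι → ℕ → A) (M : ι → ℕ) (hs : ∀ j, (Phi (T j) ^ M j) (s j) = 0) (J : Finset ι) :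
    ∃ Θ ∈ Submonoid.closure (Set.range fun j => Phi (T j)), ∀ j ∈ J, Θ (s j) = 0 := by
  classical
  induction J using Finset.induction_on with
  | empty => exact ⟨1, Submonoid.one_mem _, by simp⟩
  | insert j J hj ih =>
    obtain ⟨Θ, hΘ, hJ⟩ := ih
    have hc : Commute Θ (Phi (T j) ^ M j) := by
      apply Commute.pow_right
      clear hJ
      induction hΘ using Submonoid.closure_induction with
      | mem x hx =>
        obtain ⟨i, rfl⟩ := hx
        exact Phi_comm _ _ (hT i j)
      | one => exact Commute.one_left _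
      | mul x y _ _ hx hy => exact hx.mul_left hy
    refine ⟨Θ * Phi (T j) ^ M j, Submonoid.mul_mem _ hΘ (Submonoid.pow_mem _
      (Submonoid.subset_closure (Set.mem_range_self (f := fun j => Phi (T j)) j)) _), ?_⟩
    intro i hi
    rcases Finset.mem_insert.1 hi with rfl | hi
    · rw [Module.End.mul_apply, hs, map_zero]
    · rw [hc.eq, Module.End.mul_apply, hJ i hi, map_zero]

/-- The main obstruction. -/
theorem core [NoZeroDivisors A] [CharZero A] (t₁ t₂ d₁ d₂ : A)
    (h11 : d₁ * t₁ = t₁ * d₁ + 1) (h22 : d₂ * t₂ = t₂ * d₂ + 1)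
    (h12 : d₁ * t₂ = t₂ * d₁) (h21 : d₂ * t₁ = t₁ * d₂)
    (hn1 : ∀ x : A, ∃ n, (ad t₁)^[n] x = 0) (hn2 : ∀ x : A, ∃ n, (ad t₂)^[n] x = 0)
    (hne : 1 + (t₁ - t₂) * d₁ * ((t₁ - t₂) * d₂) ≠ 0)
    {ι : Type*} [Fintype ι] (T : ι → A) (hT : ∀ i j, T i * T j = T j * T i)
    (hT1 : ∀ i, T i ≠ t₁) (hT2 : ∀ i, T i ≠ t₂) (D : ι → A) (N : ι → ℕ) (V : ι → ℕ → A)
    (hs : ∀ n : ℕ, t₁ ^ n * d₁ + t₂ ^ n * d₂ = ∑ j, (T j ^ n * D j +
      ∑ i ∈ Finset.range (N j), (n.choose (i + 1) : A) * (T j ^ (n - (i + 1)) * V j i))) :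
    False := by
  classical
  -- each summand is killed
  have hk : ∀ j, (Phi (T j) ^ (N j + 1)) (fun n => T j ^ n * D j +
      ∑ i ∈ Finset.range (N j), (n.choose (i + 1) : A) * (T j ^ (n - (i + 1)) * V j i)) = 0 := by
    intro j
    have e : (fun n => T j ^ n * D j +
      ∑ i ∈ Finset.range (N j), (n.choose (i + 1) : A) * (T j ^ (n - (i + 1)) * V j i)) =
      (fun n => ((n.choose 0 : ℕ) : A) * (T j ^ (n - 0) * D j)) +
      ∑ i ∈ Finset.range (N j),
        (fun n => (n.choose (i + 1) : A) * (T j ^ (n - (i + 1)) * V j i)) := by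
      ext n
      simp
    have kill : ∀ (k : ℕ) (W : A), k ≤ N j →
        (Phi (T j) ^ (N j + 1)) (fun n => (n.choose k : A) * (T j ^ (n - k) * W)) = 0 := by
      intro k W hk
      obtain ⟨m, hm⟩ := Nat.exists_eq_add_of_le hk
      rw [hm, show k + m + 1 = m + (k + 1) by ring, pow_add, Module.End.mul_apply, Phi_choose,
        map_zero]
    rw [e, map_add, map_sum, kill 0 (D j) (by omega), zero_add]
    apply Finset.sum_eq_zero
    intro i hi
    exact kill (i + 1) _ (by have := Finset.mem_range.1 hi; omega)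
  obtain ⟨Θ, hΘ, hJ⟩ := exists_kill T hT _ (fun j => N j + 1) hk Finset.univ
  have hΘa : Θ (fun n => t₁ ^ n * d₁ + t₂ ^ n * d₂) = 0 := by
    have e : (fun n => t₁ ^ n * d₁ + t₂ ^ n * d₂) = ∑ j, (fun n => T j ^ n * D j +
      ∑ i ∈ Finset.range (N j), (n.choose (i + 1) : A) * (T j ^ (n - (i + 1)) * V j i)) := by
      ext n
      rw [hs n]
      simp
    rw [e, map_sum]
    exact Finset.sum_eq_zero hJ
  -- form of the image
  have hform : ∀ Θ ∈ Submonoid.closure (Set.range fun j => Phi (T j)), ∀ x y : A, x ≠ 0 → y ≠ 0 →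
      ∃ x' y' : A, x' ≠ 0 ∧ y' ≠ 0 ∧
        Θ (fun n => x * t₁ ^ n * d₁ + y * t₂ ^ n * d₂) =
          fun n => x' * t₁ ^ n * d₁ + y' * t₂ ^ n * d₂ := by
    intro Θ hΘ
    induction hΘ using Submonoid.closure_induction with
    | mem Θ hΘ =>
      obtain ⟨j, rfl⟩ := hΘ
      intro x y hx hy
      refine ⟨x * t₁ - T j * x, y * t₂ - T j * y, ?_, ?_, ?_⟩
      · intro h
        exact hT1 j (eq_of_mul_eq t₁ (T j) x hx (hn1 _) (hn1 _) (sub_eq_zero.1 h))
      · intro h
        exact hT2 j (eq_of_mul_eq t₂ (T j) y hy (hn2 _) (hn2 _) (sub_eq_zero.1 h))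
      · ext n
        simp only [Phi_apply, pow_succ']
        noncomm_ring
    | one =>
      intro x y hx hy
      exact ⟨x, y, hx, hy, rfl⟩
    | mul Θ Θ' _ _ h h' =>
      intro x y hx hy
      obtain ⟨x', y', hx', hy', e'⟩ := h' x y hx hy
      obtain ⟨x'', y'', hx'', hy'', e''⟩ := h x' y' hx' hy'
      exact ⟨x'', y'', hx'', hy'', by rw [Module.End.mul_apply, e', e'']⟩
  have : Nontrivial A := ⟨⟨_, _, hne⟩⟩
  obtain ⟨x, y, hx, hy, hxy⟩ := hform Θ hΘ 1 1 one_ne_zero one_ne_zero
  simp only [one_mul] at hxy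
  rw [hΘa] at hxy
  have h0 : x * d₁ + y * d₂ = 0 := by
    have := congrFun hxy 0
    simpa using this.symm
  have h1 : x * t₁ * d₁ + y * t₂ * d₂ = 0 := by
    have := congrFun hxy 1
    simpa using this.symm
  -- x = - y (t₁ - t₂) d₂
  have hx' : x = - (y * ((t₁ - t₂) * d₂)) := by
    have e1 : (x * d₁ + y * d₂) * t₁ = 0 := by rw [h0, zero_mul]
    rw [add_mul, mul_assoc, mul_assoc, h11, h21] at e1
    have e2 : x * (t₁ * d₁ + 1) + y * (t₁ * d₂) - (x * t₁ * d₁ + y * t₂ * d₂) = 0 := by
      rw [e1, h1, sub_zero]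
    have e3 : x * (t₁ * d₁ + 1) + y * (t₁ * d₂) - (x * t₁ * d₁ + y * t₂ * d₂) =
      x + y * ((t₁ - t₂) * d₂) := by noncomm_ring
    rw [e3] at e2
    exact eq_neg_of_add_eq_zero_left e2
  have hy' : y = x * ((t₁ - t₂) * d₁) := by
    have e1 : (x * d₁ + y * d₂) * t₂ = 0 := by rw [h0, zero_mul]
    rw [add_mul, mul_assoc, mul_assoc, h12, h22] at e1
    have e2 : x * (t₂ * d₁) + y * (t₂ * d₂ + 1) - (x * t₁ * d₁ + y * t₂ * d₂) = 0 := by
      rw [e1, h1, sub_zero]
    have e3 : x * (t₂ * d₁) + y * (t₂ * d₂ + 1) - (x * t₁ * d₁ + y * t₂ * d₂) =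
      y - x * ((t₁ - t₂) * d₁) := by noncomm_ring
    rw [e3] at e2
    exact sub_eq_zero.1 e2
  have h2 : x * (1 + (t₁ - t₂) * d₁ * ((t₁ - t₂) * d₂)) = 0 := by
    have e5 : x * (1 + (t₁ - t₂) * d₁ * ((t₁ - t₂) * d₂)) =
        x + (x * ((t₁ - t₂) * d₁)) * ((t₁ - t₂) * d₂) := by noncomm_ring
    rw [e5, ← hy']
    nth_rewrite 1 [hx']
    simp
  rcases mul_eq_zero.1 h2 with h | h
  · exact hx h
  · exact hne h

end Q8.WF
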