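import Mathlib

/-!
General lemmas for the Lie homomorphism `Ψ`.
-/

namespace Q8.WF

open Finset

variable {P : Type*} [CommRing P] [Algebra ℂ P] (d : Derivation ℂ P P)

/-- divided iterated derivative `f^(k) / k!` -/
noncomputable def divDer (k : ℕ) (f : P) : P := ((k.factorial : ℂ)⁻¹) • (d^[k] f)

lemma divDer_zero (f : P) : divDer d 0 f = f := by simp [divDer]

lemma iter_add (k : ℕ) (f g : P) : d^[k] (f + g) = d^[k] f + d^[k] g := by
  induction k with
  | zero => rfl
  | succ k ih => simp only [Function.iterate_succ_apply', ih, map_add]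

lemma iter_smul (k : ℕ) (c : ℂ) (f : P) : d^[k] (c • f) = c • d^[k] f := by
  induction k with
  | zero => rfl
  | succ k ih => rw [Function.iterate_succ_apply', Function.iterate_succ_apply', ih, Derivation.map_smul]

lemma divDer_add (k : ℕ) (f g : P) : divDer d k (f + g) = divDer d k f + divDer d k g := by
  simp only [divDer, iter_add, smul_add]

lemma divDer_smul (k : ℕ) (c : ℂ) (f : P) : divDer d k (c • f) = c • divDer d k f := by
  simp only [divDer, iter_smul, smul_comm c]

lemma d_divDer (k : ℕ) (f : P) : d (divDer d k f) = ((k + 1 : ℕ) : ℂ) • divDer d (k + 1) f := by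
  simp only [divDer, Derivation.map_smul, Function.iterate_succ_apply', smul_smul, Nat.factorial_succ]
  congr 1
  have h1 : ((k + 1 : ℕ) : ℂ) ≠ 0 := by exact_mod_cast Nat.succ_ne_zero k
  have h2 : ((k.factorial : ℕ) : ℂ) ≠ 0 := by exact_mod_cast Nat.factorial_ne_zero k
  push_cast at *
  field_simp

/-- Leibniz type formula for the divided derivatives of `f g' - f' g`. -/
lemma divDer_bracket (f g : P) (k : ℕ) :
    divDer d k (f * d g - g * d f) =
      ∑ p ∈ antidiagonal (k + 1), ((p.2 : ℂ) - p.1) • (divDer d p.1 f * divDer d p.2 g) := by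
  induction k with
  | zero =>
    rw [divDer_zero, show antidiagonal (0 + 1) = {(0, 1), (1, 0)} by decide]
    rw [Finset.sum_insert (by decide), Finset.sum_singleton]
    simp only [divDer_zero]
    have h1 : ∀ h : P, divDer d 1 h = d h := by intro h; simp [divDer]
    rw [h1, h1]
    simp
    ring
  | succ k ih =>
    have h1 : ((k + 1 : ℕ) : ℂ) ≠ 0 := by exact_mod_cast Nat.succ_ne_zero k
    have key : ((k + 1 : ℕ) : ℂ) • divDer d (k + 1) (f * d g - g * d f) =
        ((k + 1 : ℕ) : ℂ) • ∑ p ∈ antidiagonal (k + 1 + 1),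
          ((p.2 : ℂ) - p.1) • (divDer d p.1 f * divDer d p.2 g) := by
      rw [← d_divDer, ih, map_sum]
      have e1 : ∀ p ∈ antidiagonal (k + 1), d (((p.2 : ℂ) - p.1) • (divDer d p.1 f * divDer d p.2 g))
          = (((p.2 : ℂ) - p.1) * (p.2 + 1)) • (divDer d p.1 f * divDer d (p.2 + 1) g) +
            (((p.2 : ℂ) - p.1) * (p.1 + 1)) • (divDer d (p.1 + 1) f * divDer d p.2 g) := by
        intro p _
        rw [Derivation.map_smul, Derivation.leibniz, d_divDer, d_divDer]
        simp only [smul_eq_mul, mul_smul_comm, smul_add, smul_smul]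
        push_cast
        rw [mul_comm (divDer d p.2 g)]
      rw [Finset.sum_congr rfl e1, Finset.sum_add_distrib]
      have s1 : ∑ p ∈ antidiagonal (k + 1), (((p.2 : ℂ) - p.1) * (p.2 + 1)) •
          (divDer d p.1 f * divDer d (p.2 + 1) g) =
          ∑ p ∈ antidiagonal (k + 1 + 1), (((p.2 : ℂ) - 1 - p.1) * p.2) •
          (divDer d p.1 f * divDer d p.2 g) := by
        rw [Finset.Nat.sum_antidiagonal_succ' (n := k + 1)
          (f := fun p => (((p.2 : ℂ) - 1 - p.1) * p.2) • (divDer d p.1 f * divDer d p.2 g))]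
        simp
      have s2 : ∑ p ∈ antidiagonal (k + 1), (((p.2 : ℂ) - p.1) * (p.1 + 1)) •
          (divDer d (p.1 + 1) f * divDer d p.2 g) =
          ∑ p ∈ antidiagonal (k + 1 + 1), (((p.2 : ℂ) - (p.1 - 1)) * p.1) •
          (divDer d p.1 f * divDer d p.2 g) := by
        rw [Finset.Nat.sum_antidiagonal_succ (n := k + 1)
          (f := fun p => (((p.2 : ℂ) - (p.1 - 1)) * p.1) • (divDer d p.1 f * divDer d p.2 g))]
        simp
      rw [s1, s2, ← Finset.sum_add_distrib, Finset.smul_sum]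
      apply Finset.sum_congr rfl
      intro p hp
      have hp' : p.1 + p.2 = k + 1 + 1 := HasAntidiagonal.mem_antidiagonal.1 hp
      have hp'' : (p.1 : ℂ) + p.2 = k + 1 + 1 := by exact_mod_cast hp'
      rw [← add_smul, smul_smul]
      congr 1
      push_cast
      linear_combination ((p.2 : ℂ) - p.1) * hp''
    exact smul_right_injective P h1 key

variable {B : Type*} [Ring B] [Algebra ℂ B]

/-- `ψ(f∂) = f ∂ + ∑_{i<N} f^{(i+1)}/(i+1)! v_i`. -/
noncomputable def psi (ρ : P →ₐ[ℂ] B) (δ : B) (N : ℕ) (v : ℕ → B) (f : P) : B :=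
  ρ f * δ + ∑ i ∈ range N, ρ (divDer d (i + 1) f) * v i

lemma psi_bracket (ρ : P →ₐ[ℂ] B) (δ : B) (hδ : ∀ f, δ * ρ f = ρ f * δ + ρ (d f)) (N : ℕ)
    (v : ℕ → B) (hvρ : ∀ i f, v i * ρ f = ρ f * v i) (hvδ : ∀ i, v i * δ = δ * v i)
    (hv : ∀ i j, v i * v j - v j * v i = ((j : ℂ) - i) • v (i + j)) (hN : ∀ i, N ≤ i → v i = 0)
    (f g : P) :
    psi d ρ δ N v f * psi d ρ δ N v g - psi d ρ δ N v g * psi d ρ δ N v f =
      psi d ρ δ N v (f * d g - g * d f) := by
  classical
  -- Notation
  set F : ℕ → P := fun k => divDer d k f with hF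
  set G : ℕ → P := fun k => divDer d k g with hG
  have hcomm : ∀ a b : P, ρ a * ρ b = ρ b * ρ a := fun a b => by
    rw [← map_mul, ← map_mul, mul_comm]
  -- bracket of leading terms
  have hA : ρ f * δ * (ρ g * δ) - ρ g * δ * (ρ f * δ) = ρ (f * d g - g * d f) * δ := by
    have e1 : ρ f * δ * (ρ g * δ) = ρ f * (δ * ρ g) * δ := by noncomm_ring
    have e2 : ρ g * δ * (ρ f * δ) = ρ g * (δ * ρ f) * δ := by noncomm_ring
    rw [e1, e2, hδ, hδ, map_sub, map_mul, map_mul]
    have e3 : ρ f * (ρ g * δ + ρ (d g)) * δ - ρ g * (ρ f * δ + ρ (d f)) * δ =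
      (ρ f * ρ g - ρ g * ρ f) * δ * δ + (ρ f * ρ (d g) - ρ g * ρ (d f)) * δ := by noncomm_ring
    rw [e3, hcomm f g]; simp
  have hB : ∀ (a : P) (b : P) (i : ℕ), ρ a * δ * (ρ b * v i) - ρ b * v i * (ρ a * δ) =
      ρ (a * d b) * v i := by
    intro a b i
    have e1 : ρ a * δ * (ρ b * v i) = ρ a * (δ * ρ b) * v i := by noncomm_ring
    have e2 : ρ b * v i * (ρ a * δ) = ρ b * (v i * ρ a) * δ := by noncomm_ring
    rw [e1, e2, hδ, hvρ, map_mul]
    have e3 : ρ b * (ρ a * v i) * δ = ρ b * ρ a * (v i * δ) := by noncomm_ring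
    rw [e3, hvδ, hcomm b a]
    noncomm_ring
  have hC : ∀ (a b : P) (i j : ℕ), ρ a * v i * (ρ b * v j) - ρ b * v j * (ρ a * v i) =
      ρ (((j : ℂ) - i) • (a * b)) * v (i + j) := by
    intro a b i j
    have e1 : ρ a * v i * (ρ b * v j) = ρ a * (v i * ρ b) * v j := by noncomm_ring
    have e2 : ρ b * v j * (ρ a * v i) = ρ b * (v j * ρ a) * v i := by noncomm_ring
    rw [e1, e2, hvρ, hvρ]
    have e3 : ρ a * (ρ b * v i) * v j - ρ b * (ρ a * v j) * v i =
        ρ a * ρ b * (v i * v j) - ρ b * ρ a * (v j * v i) := by noncomm_ring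
    rw [e3, hcomm b a, ← mul_sub, hv, map_smul, map_mul, smul_mul_assoc, mul_smul_comm]
  -- expand
  have expand : psi d ρ δ N v f * psi d ρ δ N v g - psi d ρ δ N v g * psi d ρ δ N v f =
      (ρ f * δ * (ρ g * δ) - ρ g * δ * (ρ f * δ)) +
      ∑ i ∈ range N, (ρ f * δ * (ρ (G (i + 1)) * v i) - ρ (G (i + 1)) * v i * (ρ f * δ)) -
      ∑ i ∈ range N, (ρ g * δ * (ρ (F (i + 1)) * v i) - ρ (F (i + 1)) * v i * (ρ g * δ)) +
      ∑ i ∈ range N, ∑ j ∈ range N, (ρ (F (i + 1)) * v i * (ρ (G (j + 1)) * v j) -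
        ρ (G (j + 1)) * v j * (ρ (F (i + 1)) * v i)) := by
    simp only [psi, Finset.sum_sub_distrib, ← Finset.mul_sum, ← Finset.sum_mul]
    noncomm_ring
  rw [expand, hA]
  simp only [hB, hC]
  -- the double sum
  have hD : ∑ i ∈ range N, ∑ j ∈ range N,
      ρ (((j : ℂ) - i) • (F (i + 1) * G (j + 1))) * v (i + j) =
      ∑ k ∈ range N, (∑ p ∈ antidiagonal k,
        ρ (((p.2 : ℂ) - p.1) • (F (p.1 + 1) * G (p.2 + 1)))) * v k := by
    rw [← Finset.sum_product']
    rw [← Finset.sum_fiberwise_of_maps_to (t := range (2 * N)) (g := fun p : ℕ × ℕ => p.1 + p.2)]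
    · have hsub : range N ⊆ range (2 * N) := by
        intro x hx
        have := Finset.mem_range.1 hx
        exact Finset.mem_range.2 (by omega)
      rw [← Finset.sum_subset hsub]
      · apply Finset.sum_congr rfl
        intro k hk
        have hk' := Finset.mem_range.1 hk
        rw [Finset.sum_mul]
        have hset : (range N ×ˢ range N).filter (fun p => p.1 + p.2 = k) = antidiagonal k := by
          ext p
          simp only [Finset.mem_filter, Finset.mem_product, Finset.mem_range,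
            HasAntidiagonal.mem_antidiagonal]
          omega
        rw [hset]
        apply Finset.sum_congr rfl
        intro p hp
        rw [HasAntidiagonal.mem_antidiagonal.1 hp]
      · intro k _ hk
        have hk' : N ≤ k := by
          by_contra hc
          exact hk (Finset.mem_range.2 (by omega))
        apply Finset.sum_eq_zero
        intro p hp
        rw [(Finset.mem_filter.1 hp).2, hN k hk', mul_zero]
    · intro p hp
      rw [Finset.mem_product, Finset.mem_range, Finset.mem_range] at hp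
      exact Finset.mem_range.2 (by omega)
  rw [hD]
  rw [psi]
  have hE : ∀ k, divDer d (k + 1) (f * d g - g * d f) =
      f * d (G (k + 1)) - g * d (F (k + 1)) +
      ∑ p ∈ antidiagonal k, (((p.2 : ℂ) - p.1) • (F (p.1 + 1) * G (p.2 + 1))) := by
    intro k
    rw [divDer_bracket, Finset.Nat.sum_antidiagonal_succ, Finset.Nat.sum_antidiagonal_succ']
    simp only [hF, hG, d_divDer, divDer_zero]
    push_cast
    simp only [mul_smul_comm]
    have e5 : ∀ p : ℕ × ℕ, ((p.2 : ℂ) + 1 - (p.1 + 1)) = (p.2 : ℂ) - p.1 := by intro p; ring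
    simp only [e5]
    simp only [zero_sub, sub_zero, neg_smul]
    rw [mul_comm g]
    abel
  simp only [hE, map_add, map_sub, map_sum]
  rw [← sub_eq_zero]
  simp only [add_mul, sub_mul, Finset.sum_add_distrib, Finset.sum_sub_distrib]
  abel

/-- Sum of commuting families. -/
lemma sum_bracket {ι : Type*} [Fintype ι] {L : Type*} (br : L → L → L) (ψ : ι → L → B)
    (h1 : ∀ i x y, ψ i x * ψ i y - ψ i y * ψ i x = ψ i (br x y))
    (h2 : ∀ i j, i ≠ j → ∀ x y, ψ i x * ψ j y = ψ j y * ψ i x) (x y : L) :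
    (∑ i, ψ i x) * (∑ i, ψ i y) - (∑ i, ψ i y) * (∑ i, ψ i x) = ∑ i, ψ i (br x y) := by
  classical
  have e1 : (∑ i, ψ i x) * (∑ i, ψ i y) - (∑ i, ψ i y) * (∑ i, ψ i x) =
      ∑ i, ∑ j, (ψ i x * ψ j y - ψ j y * ψ i x) := by
    simp only [Finset.sum_sub_distrib]
    rw [Finset.sum_mul_sum, Finset.sum_mul_sum]
    congr 1
    exact Finset.sum_comm
  rw [e1]
  apply Finset.sum_congr rfl
  intro i _
  rw [Finset.sum_eq_single i]
  · exact h1 i x y
  · intro j _ hj
    rw [h2 i j (Ne.symm hj), sub_self]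
  · intro h
    exact absurd (Finset.mem_univ i) h

end Q8.WF
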