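import Mathlib
import Pool.Agent.Q8.WF.Gen

/-!
Definitions: the Witt type Lie algebras, their finite dimensional quotients `𝔤_n`, the Weyl
algebras `A_k`, `Ã_k` and the homomorphisms `Ψ_𝐧`.
-/

open scoped TensorProduct DirectSum Polynomial LaurentPolynomial

attribute [local instance 100] LieRing.ofAssociativeRing

noncomputable section

namespace Q8.WF

/-! ### The Lie algebras -/

/-- `W_{-1} = ℂ[t]∂`, realized as the Lie algebra of all `ℂ`-linear derivations of `ℂ[t]`, with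
the commutator bracket. The element `f∂` is the derivation `D` with `D t = f`. -/
abbrev W1 : Type := Derivation ℂ ℂ[X] ℂ[X]

/-- `W = ℂ[t,t⁻¹]∂`, realized as the Lie algebra of all `ℂ`-linear derivations of `ℂ[t,t⁻¹]`, with
the commutator bracket. The element `f∂` is the derivation `D` with `D t = f`. -/
abbrev WL : Type := Derivation ℂ ℂ[T;T⁻¹] ℂ[T;T⁻¹]

lemma W1_apply (D : W1) (f : ℂ[X]) : D f = Polynomial.derivative f * D Polynomial.X := by
  have h : D = Polynomial.mkDerivation ℂ (D Polynomial.X) :=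
    Polynomial.derivation_ext (by simp)
  conv_lhs => rw [h]
  rw [Polynomial.mkDerivation_apply, smul_eq_mul]

/-- `W_{≥0}`: the derivations `f∂` with `f ∈ tℂ[t]`. -/
def W0 : LieSubalgebra ℂ W1 where
  carrier := {D | Polynomial.X ∣ D Polynomial.X}
  zero_mem' := by simp
  add_mem' := by
    intro a b ha hb
    exact dvd_add ha hb
  smul_mem' := by
    intro c a ha
    show Polynomial.X ∣ (c • a) Polynomial.X
    rw [Derivation.smul_apply, Polynomial.smul_eq_C_mul]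
    exact Dvd.dvd.mul_left ha _
  lie_mem' := by
    intro a b ha hb
    show Polynomial.X ∣ ⁅a, b⁆ Polynomial.X
    rw [Derivation.commutator_apply, W1_apply a (b _), W1_apply b (a _)]
    exact dvd_sub (Dvd.dvd.mul_left ha _) (Dvd.dvd.mul_left hb _)

lemma mem_W0 {D : W1} : D ∈ W0 ↔ Polynomial.X ∣ D Polynomial.X := Iff.rfl

lemma dvd_lie {n : ℕ} (a b : W1) (ha : Polynomial.X ∣ a Polynomial.X)
    (hb : Polynomial.X ^ (n + 1) ∣ b Polynomial.X) :
    Polynomial.X ^ (n + 1) ∣ ⁅a, b⁆ Polynomial.X := by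
  rw [Derivation.commutator_apply, W1_apply a (b _), W1_apply b (a _)]
  apply dvd_sub
  · obtain ⟨c, hc⟩ := hb
    obtain ⟨e, he⟩ := ha
    rw [hc, he, Polynomial.derivative_mul, Polynomial.derivative_X_pow]
    refine ⟨Polynomial.C ((n + 1 : ℕ) : ℂ) * c * e +
      Polynomial.derivative c * Polynomial.X * e, ?_⟩
    simp only [Nat.add_sub_cancel]
    ring
  · exact Dvd.dvd.mul_left hb _

/-- `W_{≥n}` as an ideal of `W_{≥0}`: the derivations `f∂` with `f ∈ t^{n+1}ℂ[t]`. -/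
def Wge (n : ℕ) : LieIdeal ℂ W0 where
  carrier := {D | Polynomial.X ^ (n + 1) ∣ (D : W1) Polynomial.X}
  zero_mem' := by simp
  add_mem' := by
    intro a b ha hb
    exact dvd_add ha hb
  smul_mem' := by
    intro c a ha
    show Polynomial.X ^ (n + 1) ∣ (c • (a : W1)) Polynomial.X
    rw [Derivation.smul_apply, Polynomial.smul_eq_C_mul]
    exact Dvd.dvd.mul_left ha _
  lie_mem := by
    intro a b hb
    exact dvd_lie (a : W1) (b : W1) a.2 hb

/-- `𝔤_n = W_{≥0} / W_{≥n}`. -/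
def g (n : ℕ) : Type := W0 ⧸ Wge n

instance (n : ℕ) : LieRing (g n) := (inferInstance : LieRing (W0 ⧸ Wge n))
instance (n : ℕ) : LieAlgebra ℂ (g n) := (inferInstance : LieAlgebra ℂ (W0 ⧸ Wge n))

/-- `e_i = t^{i+1}∂ ∈ W_{≥0}`, for `i ≥ 0`. -/
def e (i : ℕ) : W0 := ⟨Polynomial.mkDerivation ℂ (Polynomial.X ^ (i + 1) : ℂ[X]), by
  rw [mem_W0, Polynomial.mkDerivation_X]
  exact dvd_pow_self _ (Nat.succ_ne_zero i)⟩

/-- `v_i ∈ 𝔤_n`, the class of `e_i`. -/
def v (n i : ℕ) : g n := (LieSubmodule.Quotient.mk (e i) : W0 ⧸ Wge n)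

lemma v_eq_zero {n i : ℕ} (h : n ≤ i) : v n i = 0 := by
  show (LieSubmodule.Quotient.mk (e i) : W0 ⧸ Wge n) = 0
  rw [LieSubmodule.Quotient.mk_eq_zero']
  show Polynomial.X ^ (n + 1) ∣
    (Polynomial.mkDerivation ℂ (Polynomial.X ^ (i + 1) : ℂ[X])) Polynomial.X
  rw [Polynomial.mkDerivation_X]
  exact pow_dvd_pow _ (by omega)

lemma e_lie (i j : ℕ) : ⁅e i, e j⁆ = ((j : ℂ) - i) • e (i + j) := by
  apply Subtype.ext
  show ⁅(e i : W1), (e j : W1)⁆ = ((j : ℂ) - i) • (e (i + j) : W1)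
  apply Polynomial.derivation_ext
  rw [Derivation.commutator_apply, W1_apply (e i : W1) ((e j : W1) _),
    W1_apply (e j : W1) ((e i : W1) _)]
  simp only [e, Polynomial.mkDerivation_X, Derivation.smul_apply, Polynomial.derivative_X_pow,
    Nat.add_sub_cancel, Polynomial.smul_eq_C_mul, Polynomial.C_sub, map_natCast]
  push_cast
  ring

lemma v_lie (n i j : ℕ) : ⁅v n i, v n j⁆ = ((j : ℂ) - i) • v n (i + j) := by
  have h : ⁅(LieSubmodule.Quotient.mk (e i) : W0 ⧸ Wge n), LieSubmodule.Quotient.mk (e j)⁆ =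
      ((j : ℂ) - i) • (LieSubmodule.Quotient.mk (e (i + j)) : W0 ⧸ Wge n) := by
    rw [← LieSubmodule.Quotient.mk_bracket, e_lie]
    rfl
  exact h

/-- `𝔤_𝐧 = 𝔤_{n_1} ⊕ ⋯ ⊕ 𝔤_{n_ℓ}`. -/
def gs {k : ℕ} (n : Fin k → ℕ) : Type := ⨁ j : Fin k, g (n j)

instance {k : ℕ} (n : Fin k → ℕ) : LieRing (gs n) :=
  (inferInstance : LieRing (⨁ j : Fin k, g (n j)))
instance {k : ℕ} (n : Fin k → ℕ) : LieAlgebra ℂ (gs n) :=
  (inferInstance : LieAlgebra ℂ (⨁ j : Fin k, g (n j)))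

/-- The inclusion of the `j`-th summand `𝔤_{n_j} → 𝔤_𝐧`. -/
def gsOf {k : ℕ} (n : Fin k → ℕ) (j : Fin k) : g (n j) →ₗ⁅ℂ⁆ gs n :=
  DirectSum.lieAlgebraOf ℂ (Fin k) (fun j => g (n j)) j

/-- `U(𝔤_𝐧)`. -/
def Ug {k : ℕ} (n : Fin k → ℕ) : Type := UniversalEnvelopingAlgebra ℂ (gs n)

instance {k : ℕ} (n : Fin k → ℕ) : Ring (Ug n) :=
  (inferInstance : Ring (UniversalEnvelopingAlgebra ℂ (gs n)))
instance {k : ℕ} (n : Fin k → ℕ) : Algebra ℂ (Ug n) :=
  (inferInstance : Algebra ℂ (UniversalEnvelopingAlgebra ℂ (gs n)))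

/-- The canonical map `𝔤_𝐧 → U(𝔤_𝐧)`. -/
def Ug.of {k : ℕ} (n : Fin k → ℕ) : gs n →ₗ⁅ℂ⁆ Ug n := UniversalEnvelopingAlgebra.ι ℂ

lemma Ug.of_zero {k : ℕ} (n : Fin k → ℕ) : Ug.of n 0 = 0 :=
  (UniversalEnvelopingAlgebra.ι ℂ : gs n →ₗ⁅ℂ⁆ UniversalEnvelopingAlgebra ℂ (gs n)).toLinearMap.map_zero

/-- `v_i^{(j)} ∈ U(𝔤_𝐧)`: the element `v_i` of the `j`-th summand. -/
def vs {k : ℕ} (n : Fin k → ℕ) (j : Fin k) (i : ℕ) : Ug n := Ug.of n (gsOf n j (v (n j) i))

lemma vs_eq_zero {k : ℕ} (n : Fin k → ℕ) (j : Fin k) {i : ℕ} (h : n j ≤ i) : vs n j i = 0 := by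
  rw [vs, v_eq_zero h, map_zero, Ug.of_zero]

lemma vs_lie {k : ℕ} (n : Fin k → ℕ) (j : Fin k) (a b : ℕ) :
    vs n j a * vs n j b - vs n j b * vs n j a = ((b : ℂ) - a) • vs n j (a + b) := by
  rw [← LieRing.of_associative_ring_bracket, vs, vs, ← LieHom.map_lie, ← LieHom.map_lie, v_lie,
    map_smul, map_smul]
  rfl

lemma vs_comm {k : ℕ} (n : Fin k → ℕ) {j j' : Fin k} (h : j ≠ j') (a b : ℕ) :
    vs n j a * vs n j' b = vs n j' b * vs n j a := by
  rw [← sub_eq_zero, ← LieRing.of_associative_ring_bracket, vs, vs, ← LieHom.map_lie]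
  have : ⁅gsOf n j (v (n j) a), gsOf n j' (v (n j') b)⁆ = 0 :=
    DirectSum.lie_of_of_ne _ h _ _
  rw [this, Ug.of_zero]

/-! ### The Weyl algebras -/

/-- Generators `t_j, ∂_j` of the Weyl algebra. -/
inductive WeylGen (k : ℕ) : Type
  | t : Fin k → WeylGen k
  | d : Fin k → WeylGen k

/-- Relations of the Weyl algebra: `t_i t_j = t_j t_i`, `∂_i ∂_j = ∂_j ∂_i`,
`∂_i t_j = t_j ∂_i + δ_{ij}`. -/
inductive WeylRel (k : ℕ) : FreeAlgebra ℂ (WeylGen k) → FreeAlgebra ℂ (WeylGen k) → Prop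
  | tt (i j : Fin k) : WeylRel k
      (FreeAlgebra.ι ℂ (WeylGen.t i) * FreeAlgebra.ι ℂ (WeylGen.t j))
      (FreeAlgebra.ι ℂ (WeylGen.t j) * FreeAlgebra.ι ℂ (WeylGen.t i))
  | dd (i j : Fin k) : WeylRel k
      (FreeAlgebra.ι ℂ (WeylGen.d i) * FreeAlgebra.ι ℂ (WeylGen.d j))
      (FreeAlgebra.ι ℂ (WeylGen.d j) * FreeAlgebra.ι ℂ (WeylGen.d i))
  | dt (i j : Fin k) : WeylRel k
      (FreeAlgebra.ι ℂ (WeylGen.d i) * FreeAlgebra.ι ℂ (WeylGen.t j))
      (FreeAlgebra.ι ℂ (WeylGen.t j) * FreeAlgebra.ι ℂ (WeylGen.d i) + if i = j then 1 else 0)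

/-- The `k`-th Weyl algebra `A_k`. -/
def Weyl (k : ℕ) : Type := RingQuot (WeylRel k)

instance (k : ℕ) : Ring (Weyl k) := (inferInstance : Ring (RingQuot (WeylRel k)))
instance (k : ℕ) : Algebra ℂ (Weyl k) := (inferInstance : Algebra ℂ (RingQuot (WeylRel k)))

/-- The generator `t_j` of `A_k`. -/
def Weyl.t {k : ℕ} (j : Fin k) : Weyl k :=
  RingQuot.mkAlgHom ℂ (WeylRel k) (FreeAlgebra.ι ℂ (WeylGen.t j))

/-- The generator `∂_j` of `A_k`. -/
def Weyl.d {k : ℕ} (j : Fin k) : Weyl k :=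
  RingQuot.mkAlgHom ℂ (WeylRel k) (FreeAlgebra.ι ℂ (WeylGen.d j))

lemma Weyl.tt {k : ℕ} (i j : Fin k) : (Weyl.t i : Weyl k) * Weyl.t j = Weyl.t j * Weyl.t i := by
  have := RingQuot.mkAlgHom_rel ℂ (WeylRel.tt i j)
  rw [map_mul, map_mul] at this
  exact this

lemma Weyl.dd {k : ℕ} (i j : Fin k) : (Weyl.d i : Weyl k) * Weyl.d j = Weyl.d j * Weyl.d i := by
  have := RingQuot.mkAlgHom_rel ℂ (WeylRel.dd i j)
  rw [map_mul, map_mul] at this
  exact this

lemma Weyl.dt {k : ℕ} (i j : Fin k) :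
    (Weyl.d i : Weyl k) * Weyl.t j = Weyl.t j * Weyl.d i + if i = j then 1 else 0 := by
  have := RingQuot.mkAlgHom_rel ℂ (WeylRel.dt i j)
  rw [map_mul, map_add, map_mul] at this
  have h : (RingQuot.mkAlgHom ℂ (WeylRel k)) (if i = j then 1 else 0) = if i = j then 1 else 0 := by
    split_ifs <;> simp
  rw [h] at this
  exact this

/-- Universal property of `A_k`. -/
def Weyl.lift {k : ℕ} {B : Type*} [Ring B] [Algebra ℂ B] (t d : Fin k → B)
    (htt : ∀ i j, t i * t j = t j * t i) (hdd : ∀ i j, d i * d j = d j * d i)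
    (hdt : ∀ i j, d i * t j = t j * d i + if i = j then 1 else 0) : Weyl k →ₐ[ℂ] B :=
  RingQuot.liftAlgHom ℂ ⟨FreeAlgebra.lift ℂ (fun x => match x with
    | WeylGen.t j => t j
    | WeylGen.d j => d j), by
    intro x y h
    cases h with
    | tt i j => simpa using htt i j
    | dd i j => simpa using hdd i j
    | dt i j =>
      simp only [map_mul, FreeAlgebra.lift_ι_apply, map_add]
      rw [hdt]
      congr 1
      split_ifs <;> simp⟩

lemma Weyl.lift_t {k : ℕ} {B : Type*} [Ring B] [Algebra ℂ B] (t d : Fin k → B)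
    (htt hdd hdt) (j : Fin k) : Weyl.lift t d htt hdd hdt (Weyl.t j) = t j := by
  simp only [Weyl.lift, Weyl.t]
  erw [RingQuot.liftAlgHom_mkAlgHom_apply]
  simp

lemma Weyl.lift_d {k : ℕ} {B : Type*} [Ring B] [Algebra ℂ B] (t d : Fin k → B)
    (htt hdd hdt) (j : Fin k) : Weyl.lift t d htt hdd hdt (Weyl.d j) = d j := by
  simp only [Weyl.lift, Weyl.d]
  erw [RingQuot.liftAlgHom_mkAlgHom_apply]
  simp

/-! ### The homomorphisms `Ψ_𝐧` for `W_{-1}` -/

/-- `A_ℓ ⊗ U(𝔤_𝐧)`. -/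
def AU {k : ℕ} (n : Fin k → ℕ) : Type := Weyl k ⊗[ℂ] Ug n

instance {k : ℕ} (n : Fin k → ℕ) : Ring (AU n) := (inferInstance : Ring (Weyl k ⊗[ℂ] Ug n))
instance {k : ℕ} (n : Fin k → ℕ) : Algebra ℂ (AU n) :=
  (inferInstance : Algebra ℂ (Weyl k ⊗[ℂ] Ug n))

/-- The pure tensor `a ⊗ b ∈ A_ℓ ⊗ U(𝔤_𝐧)`. -/
def AU.mk {k : ℕ} (n : Fin k → ℕ) (a : Weyl k) (b : Ug n) : AU n := a ⊗ₜ[ℂ] b

lemma AU.mk_mul {k : ℕ} (n : Fin k → ℕ) (a a' : Weyl k) (b b' : Ug n) :
    AU.mk n a b * AU.mk n a' b' = AU.mk n (a * a') (b * b') :=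
  Algebra.TensorProduct.tmul_mul_tmul a a' b b'

lemma AU.mk_pow {k : ℕ} (n : Fin k → ℕ) (a : Weyl k) (m : ℕ) :
    AU.mk n a 1 ^ m = AU.mk n (a ^ m) 1 := by
  have := Algebra.TensorProduct.tmul_pow (R := ℂ) a (1 : Ug n) m
  rw [one_pow] at this
  exact this

lemma AU.mk_nsmul {k : ℕ} (n : Fin k → ℕ) (a : Weyl k) (b : Ug n) (m : ℕ) :
    AU.mk n (m • a) b = m • AU.mk n a b := (TensorProduct.smul_tmul' m a b).symm

lemma AU.mk_sub {k : ℕ} (n : Fin k → ℕ) (a : Weyl k) (b b' : Ug n) :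
    AU.mk n a (b - b') = AU.mk n a b - AU.mk n a b' := TensorProduct.tmul_sub a b b'

lemma AU.mk_smul {k : ℕ} (n : Fin k → ℕ) (a : Weyl k) (b : Ug n) (c : ℂ) :
    AU.mk n a (c • b) = c • AU.mk n a b := TensorProduct.tmul_smul c a b

lemma AU.mk_zero {k : ℕ} (n : Fin k → ℕ) (a : Weyl k) : AU.mk n a 0 = 0 :=
  TensorProduct.tmul_zero _ a

/-- `a ↦ a ⊗ 1` -/
def AU.left {k : ℕ} (n : Fin k → ℕ) : Weyl k →ₐ[ℂ] AU n :=
  (Algebra.TensorProduct.includeLeft : Weyl k →ₐ[ℂ] Weyl k ⊗[ℂ] Ug n)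

lemma AU.left_apply {k : ℕ} (n : Fin k → ℕ) (a : Weyl k) : AU.left n a = AU.mk n a 1 := rfl

/-- The formula for `Ψ_𝐧` on `D = f∂ ∈ W_{-1}` (so `f = D t`):
`Ψ_𝐧(f∂) = ∑_j ( f(t_j)∂_j ⊗ 1 + ∑_{i<n_j} (f^{(i+1)}/(i+1)!)(t_j) ⊗ v_i^{(j)} )`. -/
def PsiFun {k : ℕ} (n : Fin k → ℕ) (D : W1) : AU n :=
  ∑ j : Fin k, (AU.mk n (Polynomial.aeval (Weyl.t j) (D Polynomial.X) * Weyl.d j) 1 +
    ∑ i ∈ Finset.range (n j),
      AU.mk n (Polynomial.aeval (Weyl.t j)
        (((i + 1).factorial : ℂ)⁻¹ • (Polynomial.derivative^[i + 1] (D Polynomial.X))))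
          (vs n j i))

lemma commute_aeval {B : Type*} [Ring B] [Algebra ℂ B] (x t : B) (h : x * t = t * x) (f : ℂ[X]) :
    x * Polynomial.aeval t f = Polynomial.aeval t f * x := by
  induction f using Polynomial.induction_on' with
  | add p q hp hq => rw [map_add, mul_add, add_mul, hp, hq]
  | monomial n a =>
    rw [Polynomial.aeval_monomial]
    have h1 : Commute x (t ^ n) := Commute.pow_right h n
    have h2 : Commute x (algebraMap ℂ B a) := (Algebra.commutes a x).symm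
    exact (h2.mul_right h1)

lemma der_aeval {B : Type*} [Ring B] [Algebra ℂ B] (δ t : B) (h : δ * t = t * δ + 1) (f : ℂ[X]) :
    δ * Polynomial.aeval t f =
      Polynomial.aeval t f * δ + Polynomial.aeval t (Polynomial.derivative f) := by
  induction f using Polynomial.induction_on' with
  | add p q hp hq => simp only [map_add, mul_add, add_mul, hp, hq]; abel
  | monomial n a =>
    have h1 : ∀ n : ℕ, δ * t ^ n = t ^ n * δ + (n : B) * t ^ (n - 1) := by
      intro n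
      induction n with
      | zero => simp
      | succ n ih =>
        rw [pow_succ, ← mul_assoc, ih, add_mul, mul_assoc, h, Nat.add_sub_cancel]
        rcases n with _ | n
        · simp
        · rw [Nat.add_sub_cancel, mul_assoc, ← pow_succ]
          push_cast
          noncomm_ring
    rw [Polynomial.aeval_monomial, Polynomial.derivative_monomial, Polynomial.aeval_monomial]
    rw [← mul_assoc, ← (Algebra.commutes a δ), mul_assoc, h1, mul_add, map_mul, mul_assoc,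
      mul_assoc]
    simp

open Polynomial in
/-- `d/dt` on `ℂ[t]` as a derivation. -/
abbrev dP : Derivation ℂ ℂ[X] ℂ[X] := Polynomial.derivative'

lemma dP_iter (k : ℕ) (f : ℂ[X]) : dP^[k] f = Polynomial.derivative^[k] f := rfl

lemma PsiFun_eq {k : ℕ} (n : Fin k → ℕ) (D : W1) : PsiFun n D =
    ∑ j : Fin k, psi dP ((AU.left n).comp
        (Polynomial.aeval (Weyl.t j))) (AU.mk n (Weyl.d j) 1) (n j)
        (fun i => AU.mk n 1 (vs n j i)) (D Polynomial.X) := by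
  simp only [PsiFun, psi, AlgHom.comp_apply, AU.left_apply,
    AU.mk_mul, mul_one, one_mul, divDer]
  rfl

lemma psi_add {P : Type*} [CommRing P] [Algebra ℂ P] (d : Derivation ℂ P P) {B : Type*} [Ring B]
    [Algebra ℂ B] (ρ : P →ₐ[ℂ] B) (δ : B) (N : ℕ) (v : ℕ → B) (f g : P) :
    psi d ρ δ N v (f + g) = psi d ρ δ N v f + psi d ρ δ N v g := by
  simp only [psi, divDer_add, map_add, add_mul, Finset.sum_add_distrib]
  abel

lemma psi_smul {P : Type*} [CommRing P] [Algebra ℂ P] (d : Derivation ℂ P P) {B : Type*} [Ring B]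
    [Algebra ℂ B] (ρ : P →ₐ[ℂ] B) (δ : B) (N : ℕ) (v : ℕ → B) (c : ℂ) (f : P) :
    psi d ρ δ N v (c • f) = c • psi d ρ δ N v f := by
  simp only [psi, divDer_smul, map_smul, smul_mul_assoc, smul_add, Finset.smul_sum]

lemma PsiFun_lie {k : ℕ} (n : Fin k → ℕ) (D D' : W1) :
    PsiFun n D * PsiFun n D' - PsiFun n D' * PsiFun n D = PsiFun n ⁅D, D'⁆ := by
  have hX : (⁅D, D'⁆ : W1) Polynomial.X = D Polynomial.X * dP (D' Polynomial.X) -
      D' Polynomial.X * dP (D Polynomial.X) := by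
    rw [Derivation.commutator_apply, W1_apply D (D' _), W1_apply D' (D _)]
    simp only [Polynomial.derivative'_apply]
    ring
  simp only [PsiFun_eq]
  rw [hX]
  refine sum_bracket (fun f g => f * dP g - g * dP f) _ ?_ ?_ _ _
  · intro j f g
    apply psi_bracket
    · intro f
      simp only [AlgHom.comp_apply, AU.left_apply, AU.mk_mul, mul_one]
      rw [der_aeval _ _ (by simpa using Weyl.dt j j)]
      exact TensorProduct.add_tmul _ _ _
    · intro i f
      simp only [AlgHom.comp_apply, AU.left_apply, AU.mk_mul, mul_one, one_mul]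
    · intro i
      simp only [AU.mk_mul, mul_one, one_mul]
    · intro a b
      simp only [AU.mk_mul, mul_one]
      rw [← AU.mk_sub, vs_lie, AU.mk_smul]
    · intro i hi
      rw [vs_eq_zero n j hi, AU.mk_zero]
  · intro i j hij f g
    have c1 : ∀ p q : ℂ[X], Polynomial.aeval (Weyl.t i : Weyl k) p * Polynomial.aeval (Weyl.t j) q =
        Polynomial.aeval (Weyl.t j) q * Polynomial.aeval (Weyl.t i) p := by
      intro p q
      apply commute_aeval
      exact (commute_aeval _ _ (Weyl.tt j i) p).symm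
    have c2 : ∀ p : ℂ[X], Weyl.d i * Polynomial.aeval (Weyl.t j) p =
        Polynomial.aeval (Weyl.t j) p * (Weyl.d i : Weyl k) := by
      intro p
      apply commute_aeval
      simpa [hij] using Weyl.dt i j
    have c3 : ∀ p : ℂ[X], Weyl.d j * Polynomial.aeval (Weyl.t i) p =
        Polynomial.aeval (Weyl.t i) p * (Weyl.d j : Weyl k) := by
      intro p
      apply commute_aeval
      simpa [Ne.symm hij] using Weyl.dt j i
    have key : ∀ (a b c d' : Weyl k) (x y : Ug n),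
        a * b = b * a → x * y = y * x →
        AU.mk n a x * AU.mk n b y = AU.mk n b y * AU.mk n a x := by
      intro a b _ _ x y h1 h2
      rw [AU.mk_mul, AU.mk_mul, h1, h2]
    have e1 : ∀ p q : ℂ[X], Polynomial.aeval (Weyl.t i : Weyl k) p * Weyl.d i *
        (Polynomial.aeval (Weyl.t j) q * Weyl.d j) = Polynomial.aeval (Weyl.t j) q * Weyl.d j *
        (Polynomial.aeval (Weyl.t i : Weyl k) p * Weyl.d i) := by
      intro p q
      have h1 : Commute (Polynomial.aeval (Weyl.t i : Weyl k) p) (Polynomial.aeval (Weyl.t j) q) :=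
        c1 p q
      have h2 : Commute (Weyl.d i : Weyl k) (Polynomial.aeval (Weyl.t j) q) := c2 q
      have h3 : Commute (Polynomial.aeval (Weyl.t i : Weyl k) p) (Weyl.d j) := (c3 p).symm
      have h4 : Commute (Weyl.d i : Weyl k) (Weyl.d j) := Weyl.dd i j
      exact ((h1.mul_left h2).mul_right (h3.mul_left h4))
    have e2 : ∀ p q : ℂ[X], Polynomial.aeval (Weyl.t i : Weyl k) p * Weyl.d i *
        (Polynomial.aeval (Weyl.t j) q) = Polynomial.aeval (Weyl.t j) q *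
        (Polynomial.aeval (Weyl.t i : Weyl k) p * Weyl.d i) := by
      intro p q
      have h1 : Commute (Polynomial.aeval (Weyl.t i : Weyl k) p) (Polynomial.aeval (Weyl.t j) q) :=
        c1 p q
      have h2 : Commute (Weyl.d i : Weyl k) (Polynomial.aeval (Weyl.t j) q) := c2 q
      exact (h1.mul_left h2)
    have e3 : ∀ p q : ℂ[X], Polynomial.aeval (Weyl.t i : Weyl k) p *
        (Polynomial.aeval (Weyl.t j) q * Weyl.d j) = Polynomial.aeval (Weyl.t j) q * Weyl.d j *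
        (Polynomial.aeval (Weyl.t i : Weyl k) p) := by
      intro p q
      have h1 : Commute (Polynomial.aeval (Weyl.t i : Weyl k) p) (Polynomial.aeval (Weyl.t j) q) :=
        c1 p q
      have h3 : Commute (Polynomial.aeval (Weyl.t i : Weyl k) p) (Weyl.d j) := (c3 p).symm
      exact (h1.mul_right h3)
    simp only [psi, AlgHom.comp_apply, AU.left_apply, AU.mk_mul, mul_one, one_mul]
    change Commute _ _
    apply Commute.add_left
    · apply Commute.add_right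
      · exact key _ _ 0 0 _ _ (e1 f g) rfl
      · apply Commute.sum_right
        intro b _
        exact key _ _ 0 0 _ _ (e2 f _) (by simp)
    · apply Commute.sum_left
      intro a _
      apply Commute.add_right
      · exact key _ _ 0 0 _ _ (e3 _ g) (by simp)
      · apply Commute.sum_right
        intro b _
        exact key _ _ 0 0 _ _ (c1 _ _) (vs_comm n hij a b)

/-- `Ψ_𝐧` as a Lie algebra homomorphism `W_{-1} → A_ℓ ⊗ U(𝔤_𝐧)`. -/
def PsiLie {k : ℕ} (n : Fin k → ℕ) : W1 →ₗ⁅ℂ⁆ AU n where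
  toFun := PsiFun n
  map_add' D D' := by
    simp only [PsiFun_eq, Derivation.add_apply, psi_add, Finset.sum_add_distrib]
  map_smul' c D := by
    simp only [PsiFun_eq, Derivation.smul_apply, psi_smul, Finset.smul_sum, RingHom.id_apply]
  map_lie' := by
    intro D D'
    rw [LieRing.of_associative_ring_bracket]
    exact (PsiFun_lie n D D').symm

/-- `Ψ_𝐧 : U(W_{-1}) → A_ℓ ⊗ U(𝔤_𝐧)`. -/
def Psi {k : ℕ} (n : Fin k → ℕ) : UniversalEnvelopingAlgebra ℂ W1 →ₐ[ℂ] AU n :=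
  UniversalEnvelopingAlgebra.lift ℂ (PsiLie n)

end Q8.WF
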