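import Mathlib
import Pool.Agent.Q8.WF.Defs

/-!
Definitions for the Laurent polynomial case: `d/dt` on `ℂ[t,t⁻¹]`, the algebras `Ã_k` and the
homomorphisms `Ψ_𝐧^W`.
-/

open scoped TensorProduct DirectSum Polynomial LaurentPolynomial

attribute [local instance 100] LieRing.ofAssociativeRing

noncomputable section

namespace Q8.WF

open LaurentPolynomial (T C)

/-- The linear map `f ↦ f'` on `ℂ[t,t⁻¹]`: it sends `t^n` to `n t^{n-1}`. -/
def derLin : ℂ[T;T⁻¹] →ₗ[ℂ] ℂ[T;T⁻¹] :=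
  (AddMonoidAlgebra.basis ℤ ℂ).constr ℂ (fun n : ℤ => (n : ℂ) • T (n - 1))

lemma constrL {M : Type*} [AddCommGroup M] [Module ℂ M] (F : ℤ → M) (n : ℤ) (a : ℂ) :
    (AddMonoidAlgebra.basis ℤ ℂ).constr ℂ F (C a * T n : ℂ[T;T⁻¹]) = a • F n := by
  have h : (C a * T n : ℂ[T;T⁻¹]) = a • (AddMonoidAlgebra.basis ℤ ℂ n) := by
    rw [AddMonoidAlgebra.basis_apply, LaurentPolynomial.smul_eq_C_mul]
    rfl
  rw [h, map_smul, Module.Basis.constr_basis]

lemma constrT {M : Type*} [AddCommGroup M] [Module ℂ M] (F : ℤ → M) (n : ℤ) :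
    (AddMonoidAlgebra.basis ℤ ℂ).constr ℂ F (T n : ℂ[T;T⁻¹]) = F n := by
  have := constrL F n 1
  rwa [map_one, one_mul, one_smul] at this

lemma derLin_T (n : ℤ) : derLin (T n) = (n : ℂ) • T (n - 1) := constrT _ n

lemma derLin_leibniz (f g : ℂ[T;T⁻¹]) : derLin (f * g) = f • derLin g + g • derLin f := by
  simp only [smul_eq_mul]
  induction f using LaurentPolynomial.induction_on' with
  | add f f' hf hf' => rw [add_mul, map_add, map_add, hf, hf']; ring
  | C_mul_T m a =>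
    induction g using LaurentPolynomial.induction_on' with
    | add g g' hg hg' => rw [mul_add, map_add, map_add, hg, hg']; ring
    | C_mul_T n b =>
      have e : ∀ (n : ℤ) (b : ℂ), derLin (C b * T n) = C (b * n) * T (n - 1) := by
        intro n b
        rw [derLin, constrL, smul_smul, LaurentPolynomial.smul_eq_C_mul]
      have e1 : (C a * T m * (C b * T n) : ℂ[T;T⁻¹]) = C (a * b) * T (m + n) := by
        rw [map_mul, LaurentPolynomial.T_add]; ring
      rw [e1, e, e, e]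
      have e2 : (C a * T m * (C (b * n) * T (n - 1)) : ℂ[T;T⁻¹]) =
          C (a * b * n) * T (m + n - 1) := by
        rw [map_mul, map_mul, map_mul, add_sub_assoc, LaurentPolynomial.T_add]; ring
      have e3 : (C b * T n * (C (a * m) * T (m - 1)) : ℂ[T;T⁻¹]) =
          C (a * b * m) * T (m + n - 1) := by
        rw [map_mul, map_mul, map_mul, show m + n - 1 = n + (m - 1) by ring,
          LaurentPolynomial.T_add]; ring
      rw [e2, e3, ← add_mul, ← map_add]
      congr 2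
      push_cast
      ring

/-- `d/dt` as a derivation of `ℂ[t,t⁻¹]`, so `derL f = f'`. -/
def derL : WL := Derivation.mk' derLin derLin_leibniz

lemma derL_T (n : ℤ) : derL (T n) = (n : ℂ) • T (n - 1) := derLin_T n

lemma WL_ext (D D' : WL) (h : D (T 1) = D' (T 1)) : D = D' := by
  have key : ∀ n : ℤ, D (T n) = D' (T n) := by
    intro n
    induction n using Int.induction_on with
    | zero => rw [LaurentPolynomial.T_zero, Derivation.map_one_eq_zero, Derivation.map_one_eq_zero]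
    | succ n ih =>
      rw [LaurentPolynomial.T_add, Derivation.leibniz, Derivation.leibniz, h, ih]
    | pred n ih =>
      have e : (T (-(n : ℤ)) : ℂ[T;T⁻¹]) = T (-(n : ℤ) - 1) * T 1 := by
        rw [← LaurentPolynomial.T_add]; congr 1; ring
      rw [e, Derivation.leibniz, Derivation.leibniz, h] at ih
      have h1 : (T 1 : ℂ[T;T⁻¹]) * D (T (-(n : ℤ) - 1)) = T 1 * D' (T (-(n : ℤ) - 1)) :=
        add_left_cancel ih
      have h2 : (T (-1) : ℂ[T;T⁻¹]) * (T 1 * D (T (-(n : ℤ) - 1))) =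
        T (-1) * (T 1 * D' (T (-(n : ℤ) - 1))) := by rw [h1]
      rw [← mul_assoc, ← mul_assoc, ← LaurentPolynomial.T_add] at h2
      simpa using h2
  ext1 f
  induction f using LaurentPolynomial.induction_on' with
  | add f f' hf hf' => rw [map_add, map_add, hf, hf']
  | C_mul_T m a =>
    rw [← LaurentPolynomial.smul_eq_C_mul, Derivation.map_smul, Derivation.map_smul, key]

lemma WL_apply (D : WL) (f : ℂ[T;T⁻¹]) : D f = derL f * D (T 1) := by
  have h : D = (D (T 1)) • derL := by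
    apply WL_ext
    rw [Derivation.smul_apply, derL_T]
    simp
  conv_lhs => rw [h]
  rw [Derivation.smul_apply, smul_eq_mul, mul_comm]

/-! ### The localized Weyl algebras -/

/-- Generators `t_j, t_j⁻¹, ∂_j` of the localized Weyl algebra `Ã_k`. -/
inductive WeylLGen (k : ℕ) : Type
  | t : Fin k → WeylLGen k
  | s : Fin k → WeylLGen k
  | d : Fin k → WeylLGen k

/-- Relations of the localized Weyl algebra: those of the Weyl algebra, together with
`t_j t_j⁻¹ = 1 = t_j⁻¹ t_j`. -/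
inductive WeylLRel (k : ℕ) : FreeAlgebra ℂ (WeylLGen k) → FreeAlgebra ℂ (WeylLGen k) → Prop
  | tt (i j : Fin k) : WeylLRel k
      (FreeAlgebra.ι ℂ (WeylLGen.t i) * FreeAlgebra.ι ℂ (WeylLGen.t j))
      (FreeAlgebra.ι ℂ (WeylLGen.t j) * FreeAlgebra.ι ℂ (WeylLGen.t i))
  | dd (i j : Fin k) : WeylLRel k
      (FreeAlgebra.ι ℂ (WeylLGen.d i) * FreeAlgebra.ι ℂ (WeylLGen.d j))
      (FreeAlgebra.ι ℂ (WeylLGen.d j) * FreeAlgebra.ι ℂ (WeylLGen.d i))
  | dt (i j : Fin k) : WeylLRel k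
      (FreeAlgebra.ι ℂ (WeylLGen.d i) * FreeAlgebra.ι ℂ (WeylLGen.t j))
      (FreeAlgebra.ι ℂ (WeylLGen.t j) * FreeAlgebra.ι ℂ (WeylLGen.d i) + if i = j then 1 else 0)
  | ts (j : Fin k) : WeylLRel k
      (FreeAlgebra.ι ℂ (WeylLGen.t j) * FreeAlgebra.ι ℂ (WeylLGen.s j)) 1
  | st (j : Fin k) : WeylLRel k
      (FreeAlgebra.ι ℂ (WeylLGen.s j) * FreeAlgebra.ι ℂ (WeylLGen.t j)) 1

/-- The localized Weyl algebra `Ã_k`, that is `A_k` with each `t_j` inverted. -/
def WeylL (k : ℕ) : Type := RingQuot (WeylLRel k)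

instance (k : ℕ) : Ring (WeylL k) := (inferInstance : Ring (RingQuot (WeylLRel k)))
instance (k : ℕ) : Algebra ℂ (WeylL k) := (inferInstance : Algebra ℂ (RingQuot (WeylLRel k)))

/-- The generator `t_j` of `Ã_k`. -/
def WeylL.t {k : ℕ} (j : Fin k) : WeylL k :=
  RingQuot.mkAlgHom ℂ (WeylLRel k) (FreeAlgebra.ι ℂ (WeylLGen.t j))

/-- The generator `t_j⁻¹` of `Ã_k`. -/
def WeylL.s {k : ℕ} (j : Fin k) : WeylL k :=
  RingQuot.mkAlgHom ℂ (WeylLRel k) (FreeAlgebra.ι ℂ (WeylLGen.s j))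

/-- The generator `∂_j` of `Ã_k`. -/
def WeylL.d {k : ℕ} (j : Fin k) : WeylL k :=
  RingQuot.mkAlgHom ℂ (WeylLRel k) (FreeAlgebra.ι ℂ (WeylLGen.d j))

lemma WeylL.tt {k : ℕ} (i j : Fin k) :
    (WeylL.t i : WeylL k) * WeylL.t j = WeylL.t j * WeylL.t i := by
  have := RingQuot.mkAlgHom_rel ℂ (WeylLRel.tt i j)
  rw [map_mul, map_mul] at this
  exact this

lemma WeylL.dd {k : ℕ} (i j : Fin k) :
    (WeylL.d i : WeylL k) * WeylL.d j = WeylL.d j * WeylL.d i := by
  have := RingQuot.mkAlgHom_rel ℂ (WeylLRel.dd i j)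
  rw [map_mul, map_mul] at this
  exact this

lemma WeylL.dt {k : ℕ} (i j : Fin k) :
    (WeylL.d i : WeylL k) * WeylL.t j = WeylL.t j * WeylL.d i + if i = j then 1 else 0 := by
  have := RingQuot.mkAlgHom_rel ℂ (WeylLRel.dt i j)
  rw [map_mul, map_add, map_mul] at this
  have h : (RingQuot.mkAlgHom ℂ (WeylLRel k)) (if i = j then 1 else 0) = if i = j then 1 else 0 := by
    split_ifs <;> simp
  rw [h] at this
  exact this

lemma WeylL.ts {k : ℕ} (j : Fin k) : (WeylL.t j : WeylL k) * WeylL.s j = 1 := by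
  have := RingQuot.mkAlgHom_rel ℂ (WeylLRel.ts j)
  rw [map_mul, map_one] at this
  exact this

lemma WeylL.st {k : ℕ} (j : Fin k) : (WeylL.s j : WeylL k) * WeylL.t j = 1 := by
  have := RingQuot.mkAlgHom_rel ℂ (WeylLRel.st j)
  rw [map_mul, map_one] at this
  exact this

/-- The generator `t_j` as a unit of `Ã_k`. -/
def WeylL.tU {k : ℕ} (j : Fin k) : (WeylL k)ˣ := ⟨WeylL.t j, WeylL.s j, WeylL.ts j, WeylL.st j⟩

lemma WeylL.tU_val {k : ℕ} (j : Fin k) : ((WeylL.tU j : (WeylL k)ˣ) : WeylL k) = WeylL.t j := rfl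

/-- Universal property of `Ã_k`. -/
def WeylL.lift {k : ℕ} {B : Type*} [Ring B] [Algebra ℂ B] (t s d : Fin k → B)
    (htt : ∀ i j, t i * t j = t j * t i) (hdd : ∀ i j, d i * d j = d j * d i)
    (hdt : ∀ i j, d i * t j = t j * d i + if i = j then 1 else 0)
    (hts : ∀ j, t j * s j = 1) (hst : ∀ j, s j * t j = 1) : WeylL k →ₐ[ℂ] B :=
  RingQuot.liftAlgHom ℂ ⟨FreeAlgebra.lift ℂ (fun x => match x with
    | WeylLGen.t j => t j
    | WeylLGen.s j => s j
    | WeylLGen.d j => d j), by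
    intro x y h
    cases h with
    | tt i j => simpa using htt i j
    | dd i j => simpa using hdd i j
    | dt i j =>
      simp only [map_mul, FreeAlgebra.lift_ι_apply, map_add]
      rw [hdt]
      congr 1
      split_ifs <;> simp
    | ts j => simpa using hts j
    | st j => simpa using hst j⟩

lemma WeylL.lift_t {k : ℕ} {B : Type*} [Ring B] [Algebra ℂ B] (t s d : Fin k → B)
    (htt hdd hdt hts hst) (j : Fin k) : WeylL.lift t s d htt hdd hdt hts hst (WeylL.t j) = t j := by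
  simp only [WeylL.lift, WeylL.t]
  erw [RingQuot.liftAlgHom_mkAlgHom_apply]
  simp

lemma WeylL.lift_s {k : ℕ} {B : Type*} [Ring B] [Algebra ℂ B] (t s d : Fin k → B)
    (htt hdd hdt hts hst) (j : Fin k) : WeylL.lift t s d htt hdd hdt hts hst (WeylL.s j) = s j := by
  simp only [WeylL.lift, WeylL.s]
  erw [RingQuot.liftAlgHom_mkAlgHom_apply]
  simp

lemma WeylL.lift_d {k : ℕ} {B : Type*} [Ring B] [Algebra ℂ B] (t s d : Fin k → B)
    (htt hdd hdt hts hst) (j : Fin k) : WeylL.lift t s d htt hdd hdt hts hst (WeylL.d j) = d j := by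
  simp only [WeylL.lift, WeylL.d]
  erw [RingQuot.liftAlgHom_mkAlgHom_apply]
  simp

/-! ### Evaluation of Laurent polynomials -/

/-- Evaluation of Laurent polynomials at a unit `u` of a (noncommutative) `ℂ`-algebra:
`t^n ↦ u^n`. -/
def evalL {B : Type*} [Ring B] [Algebra ℂ B] (u : Bˣ) : ℂ[T;T⁻¹] →ₐ[ℂ] B :=
  AddMonoidAlgebra.lift ℂ B ℤ ((Units.coeHom B).comp (zpowersHom Bˣ u))

lemma evalL_C_mul_T {B : Type*} [Ring B] [Algebra ℂ B] (u : Bˣ) (n : ℤ) (a : ℂ) :
    evalL u (C a * T n) = a • ((u ^ n : Bˣ) : B) := by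
  rw [← LaurentPolynomial.single_eq_C_mul_T, evalL, AddMonoidAlgebra.lift_single]
  simp [zpowersHom_apply]

lemma evalL_T {B : Type*} [Ring B] [Algebra ℂ B] (u : Bˣ) (n : ℤ) :
    evalL u (T n) = ((u ^ n : Bˣ) : B) := by
  have := evalL_C_mul_T u n 1
  rwa [map_one, one_mul, one_smul] at this

lemma commute_evalL {B : Type*} [Ring B] [Algebra ℂ B] (x : B) (u : Bˣ) (h : x * u = u * x)
    (f : ℂ[T;T⁻¹]) : x * evalL u f = evalL u f * x := by
  induction f using LaurentPolynomial.induction_on' with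
  | add p q hp hq => rw [map_add, mul_add, add_mul, hp, hq]
  | C_mul_T n a =>
    rw [evalL_C_mul_T, mul_smul_comm, smul_mul_assoc]
    congr 1
    have h1 : Commute x ((u ^ n : Bˣ) : B) := Commute.units_zpow_right h n
    exact h1

lemma der_evalL {B : Type*} [Ring B] [Algebra ℂ B] (δ : B) (u : Bˣ) (h : δ * u = u * δ + 1)
    (f : ℂ[T;T⁻¹]) : δ * evalL u f = evalL u f * δ + evalL u (derL f) := by
  have key : ∀ n : ℤ, δ * ((u ^ n : Bˣ) : B) = ((u ^ n : Bˣ) : B) * δ +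
      (n : ℂ) • ((u ^ (n - 1) : Bˣ) : B) := by
    intro n
    induction n using Int.induction_on with
    | zero => simp
    | succ n ih =>
      have e1 : ((u ^ ((n : ℤ) + 1) : Bˣ) : B) = ((u ^ (n : ℤ) : Bˣ) : B) * u := by
        rw [zpow_add_one, Units.val_mul]
      have e2 : ((u ^ ((n : ℤ) - 1) : Bˣ) : B) * u = ((u ^ (n : ℤ) : Bˣ) : B) := by
        rw [← Units.val_mul, ← zpow_add_one, sub_add_cancel]
      rw [e1, ← mul_assoc, ih, add_mul, mul_assoc, h, smul_mul_assoc, e2, mul_add, mul_one,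
        ← mul_assoc, add_sub_cancel_right, add_assoc]
      congr 1
      push_cast
      rw [add_smul, one_smul, add_comm]
    | pred n ih =>
      set m : ℤ := -(n : ℤ) - 1 with hm
      have hm' : -(n : ℤ) = m + 1 := by rw [hm]; ring
      rw [hm'] at ih
      have e1 : ((u ^ (m + 1) : Bˣ) : B) = ((u ^ m : Bˣ) : B) * u := by
        rw [zpow_add_one, Units.val_mul]
      have e2 : ((u ^ m : Bˣ) : B) = ((u ^ (m - 1) : Bˣ) : B) * u := by
        rw [← Units.val_mul, ← zpow_add_one, sub_add_cancel]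
      rw [e1, ← mul_assoc] at ih
      have h3 : (δ * ((u ^ m : Bˣ) : B)) * u = (((u ^ m : Bˣ) : B) * δ +
          (m : ℂ) • ((u ^ (m - 1) : Bˣ) : B)) * u := by
        rw [ih, add_mul, smul_mul_assoc, ← e2, mul_assoc _ δ, h, mul_add,
          mul_one, ← mul_assoc, add_assoc]
        congr 1
        push_cast
        rw [add_smul, one_smul, add_comm]
      have := congrArg (fun y => y * ((u⁻¹ : Bˣ) : B)) h3
      simpa [mul_assoc] using this
  induction f using LaurentPolynomial.induction_on' with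
  | add p q hp hq => simp only [map_add, mul_add, add_mul, hp, hq]; abel
  | C_mul_T n a =>
    rw [← LaurentPolynomial.smul_eq_C_mul, map_smul, Derivation.map_smul, map_smul, derL_T,
      map_smul, evalL_T, evalL_T, mul_smul_comm, smul_mul_assoc, key, smul_add]

/-! ### The homomorphisms `Ψ_𝐧` for `W` -/

/-- `Ã_ℓ ⊗ U(𝔤_𝐧)`. -/
def AUL {k : ℕ} (n : Fin k → ℕ) : Type := WeylL k ⊗[ℂ] Ug n

instance {k : ℕ} (n : Fin k → ℕ) : Ring (AUL n) := (inferInstance : Ring (WeylL k ⊗[ℂ] Ug n))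
instance {k : ℕ} (n : Fin k → ℕ) : Algebra ℂ (AUL n) :=
  (inferInstance : Algebra ℂ (WeylL k ⊗[ℂ] Ug n))

/-- The pure tensor `a ⊗ b ∈ Ã_ℓ ⊗ U(𝔤_𝐧)`. -/
def AUL.mk {k : ℕ} (n : Fin k → ℕ) (a : WeylL k) (b : Ug n) : AUL n := a ⊗ₜ[ℂ] b

lemma AUL.mk_mul {k : ℕ} (n : Fin k → ℕ) (a a' : WeylL k) (b b' : Ug n) :
    AUL.mk n a b * AUL.mk n a' b' = AUL.mk n (a * a') (b * b') :=
  Algebra.TensorProduct.tmul_mul_tmul a a' b b'

lemma AUL.mk_pow {k : ℕ} (n : Fin k → ℕ) (a : WeylL k) (m : ℕ) :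
    AUL.mk n a 1 ^ m = AUL.mk n (a ^ m) 1 := by
  have := Algebra.TensorProduct.tmul_pow (R := ℂ) a (1 : Ug n) m
  rw [one_pow] at this
  exact this

lemma AUL.mk_nsmul {k : ℕ} (n : Fin k → ℕ) (a : WeylL k) (b : Ug n) (m : ℕ) :
    AUL.mk n (m • a) b = m • AUL.mk n a b := (TensorProduct.smul_tmul' m a b).symm

lemma AUL.mk_sub {k : ℕ} (n : Fin k → ℕ) (a : WeylL k) (b b' : Ug n) :
    AUL.mk n a (b - b') = AUL.mk n a b - AUL.mk n a b' := TensorProduct.tmul_sub a b b'

lemma AUL.mk_smul {k : ℕ} (n : Fin k → ℕ) (a : WeylL k) (b : Ug n) (c : ℂ) :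
    AUL.mk n a (c • b) = c • AUL.mk n a b := TensorProduct.tmul_smul c a b

lemma AUL.mk_zero {k : ℕ} (n : Fin k → ℕ) (a : WeylL k) : AUL.mk n a 0 = 0 :=
  TensorProduct.tmul_zero _ a

/-- `a ↦ a ⊗ 1` -/
def AUL.left {k : ℕ} (n : Fin k → ℕ) : WeylL k →ₐ[ℂ] AUL n :=
  (Algebra.TensorProduct.includeLeft : WeylL k →ₐ[ℂ] WeylL k ⊗[ℂ] Ug n)

lemma AUL.left_apply {k : ℕ} (n : Fin k → ℕ) (a : WeylL k) : AUL.left n a = AUL.mk n a 1 := rfl

/-- The formula for `Ψ_𝐧^W` on `D = f∂ ∈ W` (so `f = D t`):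
`Ψ_𝐧(f∂) = ∑_j ( f(t_j)∂_j ⊗ 1 + ∑_{i<n_j} (f^{(i+1)}/(i+1)!)(t_j) ⊗ v_i^{(j)} )`. -/
def PsiLFun {k : ℕ} (n : Fin k → ℕ) (D : WL) : AUL n :=
  ∑ j : Fin k, (AUL.mk n (evalL (WeylL.tU j) (D (T 1)) * WeylL.d j) 1 +
    ∑ i ∈ Finset.range (n j),
      AUL.mk n (evalL (WeylL.tU j) (((i + 1).factorial : ℂ)⁻¹ • (derL^[i + 1] (D (T 1)))))
        (vs n j i))

lemma PsiLFun_eq {k : ℕ} (n : Fin k → ℕ) (D : WL) : PsiLFun n D =
    ∑ j : Fin k, psi derL ((AUL.left n).comp
        (evalL (WeylL.tU j))) (AUL.mk n (WeylL.d j) 1) (n j)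
        (fun i => AUL.mk n 1 (vs n j i)) (D (T 1)) := by
  simp only [PsiLFun, psi, AlgHom.comp_apply, AUL.left_apply,
    AUL.mk_mul, mul_one, one_mul, divDer]

lemma PsiLFun_lie {k : ℕ} (n : Fin k → ℕ) (D D' : WL) :
    PsiLFun n D * PsiLFun n D' - PsiLFun n D' * PsiLFun n D = PsiLFun n ⁅D, D'⁆ := by
  have hX : (⁅D, D'⁆ : WL) (T 1) = D (T 1) * derL (D' (T 1)) - D' (T 1) * derL (D (T 1)) := by
    rw [Derivation.commutator_apply, WL_apply D (D' _), WL_apply D' (D _)]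
    ring
  simp only [PsiLFun_eq]
  rw [hX]
  refine sum_bracket (fun f g => f * derL g - g * derL f) _ ?_ ?_ _ _
  · intro j f g
    apply psi_bracket
    · intro f
      simp only [AlgHom.comp_apply, AUL.left_apply, AUL.mk_mul, mul_one]
      rw [der_evalL _ _ (by simpa [WeylL.tU_val] using WeylL.dt j j)]
      exact TensorProduct.add_tmul _ _ _
    · intro i f
      simp only [AlgHom.comp_apply, AUL.left_apply, AUL.mk_mul, mul_one, one_mul]
    · intro i
      simp only [AUL.mk_mul, mul_one, one_mul]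
    · intro a b
      simp only [AUL.mk_mul, mul_one]
      rw [← AUL.mk_sub, vs_lie, AUL.mk_smul]
    · intro i hi
      rw [vs_eq_zero n j hi, AUL.mk_zero]
  · intro i j hij f g
    have c1 : ∀ p q : ℂ[T;T⁻¹], evalL (WeylL.tU i : (WeylL k)ˣ) p * evalL (WeylL.tU j) q =
        evalL (WeylL.tU j) q * evalL (WeylL.tU i) p := by
      intro p q
      apply commute_evalL
      exact (commute_evalL _ _ (WeylL.tt j i) p).symm
    have c2 : ∀ p : ℂ[T;T⁻¹], WeylL.d i * evalL (WeylL.tU j) p =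
        evalL (WeylL.tU j) p * (WeylL.d i : WeylL k) := by
      intro p
      apply commute_evalL
      simpa [hij, WeylL.tU_val] using WeylL.dt i j
    have c3 : ∀ p : ℂ[T;T⁻¹], WeylL.d j * evalL (WeylL.tU i) p =
        evalL (WeylL.tU i) p * (WeylL.d j : WeylL k) := by
      intro p
      apply commute_evalL
      simpa [Ne.symm hij, WeylL.tU_val] using WeylL.dt j i
    have key : ∀ (a b : WeylL k) (x y : Ug n),
        a * b = b * a → x * y = y * x →
        AUL.mk n a x * AUL.mk n b y = AUL.mk n b y * AUL.mk n a x := by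
      intro a b x y h1 h2
      rw [AUL.mk_mul, AUL.mk_mul, h1, h2]
    have e1 : ∀ p q : ℂ[T;T⁻¹], evalL (WeylL.tU i : (WeylL k)ˣ) p * WeylL.d i *
        (evalL (WeylL.tU j) q * WeylL.d j) = evalL (WeylL.tU j) q * WeylL.d j *
        (evalL (WeylL.tU i : (WeylL k)ˣ) p * WeylL.d i) := by
      intro p q
      have h1 : Commute (evalL (WeylL.tU i : (WeylL k)ˣ) p) (evalL (WeylL.tU j) q) := c1 p q
      have h2 : Commute (WeylL.d i : WeylL k) (evalL (WeylL.tU j) q) := c2 q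
      have h3 : Commute (evalL (WeylL.tU i : (WeylL k)ˣ) p) (WeylL.d j) := (c3 p).symm
      have h4 : Commute (WeylL.d i : WeylL k) (WeylL.d j) := WeylL.dd i j
      exact ((h1.mul_left h2).mul_right (h3.mul_left h4))
    have e2 : ∀ p q : ℂ[T;T⁻¹], evalL (WeylL.tU i : (WeylL k)ˣ) p * WeylL.d i *
        (evalL (WeylL.tU j) q) = evalL (WeylL.tU j) q *
        (evalL (WeylL.tU i : (WeylL k)ˣ) p * WeylL.d i) := by
      intro p q
      have h1 : Commute (evalL (WeylL.tU i : (WeylL k)ˣ) p) (evalL (WeylL.tU j) q) := c1 p q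
      have h2 : Commute (WeylL.d i : WeylL k) (evalL (WeylL.tU j) q) := c2 q
      exact (h1.mul_left h2)
    have e3 : ∀ p q : ℂ[T;T⁻¹], evalL (WeylL.tU i : (WeylL k)ˣ) p *
        (evalL (WeylL.tU j) q * WeylL.d j) = evalL (WeylL.tU j) q * WeylL.d j *
        (evalL (WeylL.tU i : (WeylL k)ˣ) p) := by
      intro p q
      have h1 : Commute (evalL (WeylL.tU i : (WeylL k)ˣ) p) (evalL (WeylL.tU j) q) := c1 p q
      have h3 : Commute (evalL (WeylL.tU i : (WeylL k)ˣ) p) (WeylL.d j) := (c3 p).symm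
      exact (h1.mul_right h3)
    simp only [psi, AlgHom.comp_apply, AUL.left_apply, AUL.mk_mul, mul_one, one_mul]
    change Commute _ _
    apply Commute.add_left
    · apply Commute.add_right
      · exact key _ _ _ _ (e1 f g) rfl
      · apply Commute.sum_right
        intro b _
        exact key _ _ _ _ (e2 f _) (by simp)
    · apply Commute.sum_left
      intro a _
      apply Commute.add_right
      · exact key _ _ _ _ (e3 _ g) (by simp)
      · apply Commute.sum_right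
        intro b _
        exact key _ _ _ _ (c1 _ _) (vs_comm n hij a b)

/-- `Ψ_𝐧^W` as a Lie algebra homomorphism `W → Ã_ℓ ⊗ U(𝔤_𝐧)`. -/
def PsiLLie {k : ℕ} (n : Fin k → ℕ) : WL →ₗ⁅ℂ⁆ AUL n where
  toFun := PsiLFun n
  map_add' D D' := by
    simp only [PsiLFun_eq, Derivation.add_apply, psi_add, Finset.sum_add_distrib]
  map_smul' c D := by
    simp only [PsiLFun_eq, Derivation.smul_apply, psi_smul, Finset.smul_sum, RingHom.id_apply]
  map_lie' := by
    intro D D'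
    rw [LieRing.of_associative_ring_bracket]
    exact (PsiLFun_lie n D D').symm

/-- `Ψ_𝐧^W : U(W) → Ã_ℓ ⊗ U(𝔤_𝐧)`. -/
def PsiL {k : ℕ} (n : Fin k → ℕ) : UniversalEnvelopingAlgebra ℂ WL →ₐ[ℂ] AUL n :=
  UniversalEnvelopingAlgebra.lift ℂ (PsiLLie n)

end Q8.WF
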