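import Mathlib
import Pool.Agent.Q8.WF.Core

/-!
The field `K = ℂ(t₁,t₂)`, its derivations and the domain of locally ad-nilpotent operators.
-/

open scoped KaehlerDifferential TensorProduct

noncomputable section

namespace Q8.WF

lemma exists_derivation_ext {k S T : Type*} [CommRing k] [CommRing S] [CommRing T] [Algebra k S]
    [Algebra S T] [Algebra k T] [IsScalarTower k S T] (M : Submonoid S) [IsLocalization M T]
    (D : Derivation k S S) :
    ∃ D' : Derivation k T T, ∀ s, D' (algebraMap S T s) = algebraMap S T (D s) := by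
  have : Algebra.FormallyEtale S T := Algebra.FormallyEtale.of_isLocalization M
  let φ : Ω[S⁄k] →ₗ[S] T := (Algebra.linearMap S T).comp D.liftKaehlerDifferential
  let ψ : T ⊗[S] Ω[S⁄k] →ₗ[T] T := LinearMap.liftBaseChange T φ
  let e := KaehlerDifferential.tensorKaehlerEquivOfFormallyEtale k S T
  refine ⟨(ψ ∘ₗ e.symm.toLinearMap).compDer (KaehlerDifferential.D k T), fun s => ?_⟩
  have h1 : e.symm (KaehlerDifferential.D k T (algebraMap S T s)) =
      1 ⊗ₜ KaehlerDifferential.D k S s :=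
    KaehlerDifferential.tensorKaehlerEquivOfFormallyEtale_symm_D_algebraMap k S T s
  show ψ (e.symm (KaehlerDifferential.D k T (algebraMap S T s))) = _
  rw [h1]
  simp [ψ, φ, Derivation.liftKaehlerDifferential_comp_D]

/-- polynomial ring in two variables -/
abbrev P2 : Type := MvPolynomial (Fin 2) ℂ

/-- `K = ℂ(x₀, x₁)` -/
def K : Type := FractionRing P2

instance : Field K := inferInstanceAs (Field (FractionRing P2))
instance : Algebra ℂ K := inferInstanceAs (Algebra ℂ (FractionRing P2))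
instance : Algebra P2 K := inferInstanceAs (Algebra P2 (FractionRing P2))
instance : IsScalarTower ℂ P2 K := inferInstanceAs (IsScalarTower ℂ P2 (FractionRing P2))
instance : IsFractionRing P2 K := inferInstanceAs (IsFractionRing P2 (FractionRing P2))

instance : CharZero K := charZero_of_injective_algebraMap (algebraMap ℂ K).injective

def x (i : Fin 2) : K := algebraMap P2 K (MvPolynomial.X i)

lemma x_inj (i j : Fin 2) : x i = x j ↔ i = j := by
  constructor
  · intro h
    have h1 := IsFractionRing.injective P2 K h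
    exact MvPolynomial.X_injective h1
  · rintro rfl; rfl

lemma x01 : x 0 - x 1 ≠ 0 := by
  rw [sub_ne_zero, Ne, x_inj]
  decide

lemma exists_pd (i : Fin 2) : ∃ D' : Derivation ℂ K K, ∀ s : P2,
    D' (algebraMap P2 K s) = algebraMap P2 K (MvPolynomial.pderiv i s) :=
  exists_derivation_ext (nonZeroDivisors P2) (MvPolynomial.pderiv i)

/-- the partial derivatives on `K` -/
def pd (i : Fin 2) : Derivation ℂ K K := (exists_pd i).choose

lemma pd_x (i j : Fin 2) : pd i (x j) = if i = j then 1 else 0 := by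
  rw [pd, x, (exists_pd i).choose_spec, MvPolynomial.pderiv_X]
  by_cases h : i = j
  · subst h; simp
  · rw [if_neg h]
    simp [h]

lemma ind_K (S : K → Prop) (hC : ∀ c : ℂ, S (algebraMap ℂ K c)) (hx : ∀ i, S (x i))
    (hadd : ∀ a b, S a → S b → S (a + b)) (hmul : ∀ a b, S a → S b → S (a * b))
    (hdiv : ∀ a b, S a → S b → b ≠ 0 → S (a / b)) (a : K) : S a := by
  have hP : ∀ p : P2, S (algebraMap P2 K p) := by
    intro p
    induction p using MvPolynomial.induction_on with
    | C c =>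
      have := hC c
      rwa [IsScalarTower.algebraMap_apply ℂ P2 K] at this
    | add p q hp hq => rw [map_add]; exact hadd _ _ hp hq
    | mul_X p i hp => rw [map_mul]; exact hmul _ _ hp (hx i)
  obtain ⟨p, q, hq, rfl⟩ := IsFractionRing.div_surjective (A := P2) a
  exact hdiv _ _ (hP p) (hP q) (by
    intro h
    have : q = 0 := IsFractionRing.injective P2 K (by rw [h, map_zero])
    exact nonZeroDivisors.ne_zero hq this)

lemma der_ext_K (D D' : Derivation ℂ K K) (h : ∀ i, D (x i) = D' (x i)) : D = D' := by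
  ext a
  refine ind_K (fun a => D a = D' a) ?_ h ?_ ?_ ?_ a
  · intro c; rw [Derivation.map_algebraMap, Derivation.map_algebraMap]
  · intro a b ha hb; rw [map_add, map_add, ha, hb]
  · intro a b ha hb; rw [Derivation.leibniz, Derivation.leibniz, ha, hb]
  · intro a b ha hb _
    rw [Derivation.leibniz_div, Derivation.leibniz_div, ha, hb]

/-- operators -/
abbrev E : Type := Module.End ℂ K

/-- multiplication operator -/
def mulE : K →ₐ[ℂ] E := Algebra.lmul ℂ K

lemma mulE_apply (a b : K) : mulE a b = a * b := rfl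

def derE (D : Derivation ℂ K K) : E := (D : K →ₗ[ℂ] K)

lemma derE_apply (D : Derivation ℂ K K) (b : K) : derE D b = D b := rfl

lemma derE_mulE (D : Derivation ℂ K K) (a : K) : derE D * mulE a = mulE a * derE D + mulE (D a) := by
  apply LinearMap.ext
  intro b
  simp only [Module.End.mul_apply, LinearMap.add_apply, mulE_apply, derE_apply,
    Derivation.leibniz, smul_eq_mul]
  ring

lemma derE_comm (D D' : Derivation ℂ K K) (h : ⁅D, D'⁆ = 0) : derE D * derE D' = derE D' * derE D := by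
  apply LinearMap.ext
  intro b
  have : ⁅D, D'⁆ b = 0 := by rw [h]; rfl
  rw [Derivation.commutator_apply, sub_eq_zero] at this
  exact this

lemma mulE_derE (D : Derivation ℂ K K) (a : K) : mulE a * derE D = derE (a • D) := by
  apply LinearMap.ext
  intro b
  rfl

/-- The algebra of operators that are ad-nilpotent with respect to `x₀` and `x₁`. -/
def AA : Subalgebra ℂ E where
  carrier := {L | ∀ i, ∃ n, (ad (mulE (x i)))^[n] L = 0}
  mul_mem' := by
    intro a b ha hb i
    obtain ⟨m, hm⟩ := ha i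
    obtain ⟨n, hn⟩ := hb i
    exact ⟨m + n, adn_mul_zero _ _ _ _ _ hm hn⟩
  add_mem' := by
    intro a b ha hb i
    obtain ⟨m, hm⟩ := ha i
    obtain ⟨n, hn⟩ := hb i
    refine ⟨m + n, ?_⟩
    rw [adn_add, adn_eq_zero_of_le _ _ hm (by omega), adn_eq_zero_of_le _ _ hn (by omega),
      add_zero]
  algebraMap_mem' := by
    intro r i
    refine ⟨1, ?_⟩
    simp only [Function.iterate_one, ad]
    rw [Algebra.commutes, sub_self]

lemma mulE_mem (a : K) : mulE a ∈ AA := by
  intro i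
  refine ⟨1, ?_⟩
  simp only [Function.iterate_one, ad]
  rw [← map_mul, ← map_mul, mul_comm, sub_self]

lemma derE_mem (D : Derivation ℂ K K) : derE D ∈ AA := by
  intro i
  refine ⟨2, ?_⟩
  have h1 : ad (mulE (x i)) (derE D) = - mulE (D (x i)) := by
    simp only [ad]
    rw [derE_mulE]
    abel
  rw [Function.iterate_succ_apply, Function.iterate_one, h1]
  have h2 : mulE (x i) * mulE (D (x i)) = mulE (D (x i)) * mulE (x i) := by
    rw [← map_mul, ← map_mul, mul_comm]
  have h3 : ad (mulE (x i)) (mulE (D (x i))) = 0 := by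
    simp only [ad]
    rw [h2, sub_self]
  rw [ad_neg, h3, neg_zero]

/-- Operators commuting with `x₀` and `x₁` are multiplications. -/
lemma eq_mulE_of_comm (L : E) (h : ∀ i, ad (mulE (x i)) L = 0) (a b : K) : L (a * b) = a * L b := by
  have hx : ∀ i b, L (x i * b) = x i * L b := by
    intro i b
    have := LinearMap.congr_fun (h i) b
    simp only [ad, LinearMap.sub_apply, Module.End.mul_apply, mulE_apply, LinearMap.zero_apply] at this
    exact (sub_eq_zero.1 this).symm
  revert b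
  refine ind_K (fun a => ∀ b, L (a * b) = a * L b) ?_ hx ?_ ?_ ?_ a
  · intro c b
    rw [← Algebra.smul_def, ← Algebra.smul_def, map_smul]
  · intro a a' ha ha' b
    rw [add_mul, map_add, ha, ha', add_mul]
  · intro a a' ha ha' b
    rw [mul_assoc, ha, ha', mul_assoc]
  · intro a a' ha ha' h0 b
    have h1 := ha' (a / a' * b)
    rw [show a' * (a / a' * b) = a * b by field_simp, ha] at h1
    have h2 : L (a / a' * b) = a * L b / a' := by
      rw [h1]
      field_simp
    rw [h2]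
    ring

lemma ad_ad_comm {A : Type*} [Ring A] (s t L : A) (h : s * t = t * s) :
    ad s (ad t L) = ad t (ad s L) := by
  simp only [ad, mul_sub, sub_mul]
  have h1 : s * (t * L) = t * (s * L) := by rw [← mul_assoc, h, mul_assoc]
  have h2 : L * t * s = L * s * t := by rw [mul_assoc, ← h, mul_assoc]
  rw [h1, h2]
  simp only [mul_assoc]
  abel

lemma adn_ad_comm {A : Type*} [Ring A] (s t L : A) (h : s * t = t * s) (n : ℕ) :
    (ad s)^[n] (ad t L) = ad t ((ad s)^[n] L) := by
  induction n with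
  | zero => rfl
  | succ n ih => rw [Function.iterate_succ_apply', ih, ad_ad_comm _ _ _ h,
      Function.iterate_succ_apply']

lemma adn_adn_comm {A : Type*} [Ring A] (s t L : A) (h : s * t = t * s) (n m : ℕ) :
    (ad s)^[n] ((ad t)^[m] L) = (ad t)^[m] ((ad s)^[n] L) := by
  induction m with
  | zero => rfl
  | succ m ih => rw [Function.iterate_succ_apply', adn_ad_comm _ _ _ h, ih,
      Function.iterate_succ_apply']

lemma xx : mulE (x 0) * mulE (x 1) = mulE (x 1) * mulE (x 0) := by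
  rw [← map_mul, ← map_mul, mul_comm]

/-- `AA` is a domain. -/
lemma AA_mul_ne_zero (L M : E) (hL : L ∈ AA) (hM : M ∈ AA) (hL0 : L ≠ 0) (hM0 : M ≠ 0) :
    L * M ≠ 0 := by
  obtain ⟨a, ha, ha1⟩ := exists_top (mulE (x 1)) L hL0 (hL 1)
  obtain ⟨b, hb, hb1⟩ := exists_top (mulE (x 1)) M hM0 (hM 1)
  obtain ⟨c, hc, hc1⟩ := exists_top (mulE (x 0)) _ ha (by
    obtain ⟨n, hn⟩ := hL 0
    exact ⟨n, by rw [adn_adn_comm _ _ _ xx, hn, adn_zero]⟩)
  obtain ⟨d, hd, hd1⟩ := exists_top (mulE (x 0)) _ hb (by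
    obtain ⟨n, hn⟩ := hM 0
    exact ⟨n, by rw [adn_adn_comm _ _ _ xx, hn, adn_zero]⟩)
  set L' := (ad (mulE (x 0)))^[c] ((ad (mulE (x 1)))^[a] L) with hL'
  set M' := (ad (mulE (x 0)))^[d] ((ad (mulE (x 1)))^[b] M) with hM'
  have h1 := adn_mul_top (mulE (x 1)) a b L M ha1 hb1
  have h2 := adn_mul_top (mulE (x 0)) c d _ _ hc1 hd1
  have hLk : ∀ i, ad (mulE (x i)) L' = 0 := by
    intro i
    fin_cases i
    · show ad (mulE (x 0)) L' = 0
      rw [hL', ← Function.iterate_succ_apply' (ad (mulE (x 0)))]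
      exact hc1
    · show ad (mulE (x 1)) L' = 0
      rw [hL', ← adn_ad_comm _ _ _ xx, ← Function.iterate_succ_apply' (ad (mulE (x 1))), ha1,
        adn_zero]
  have hMk : ∀ i, ad (mulE (x i)) M' = 0 := by
    intro i
    fin_cases i
    · show ad (mulE (x 0)) M' = 0
      rw [hM', ← Function.iterate_succ_apply' (ad (mulE (x 0)))]
      exact hd1
    · show ad (mulE (x 1)) M' = 0
      rw [hM', ← adn_ad_comm _ _ _ xx, ← Function.iterate_succ_apply' (ad (mulE (x 1))), hb1,
        adn_zero]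
  have hL1 : ∀ a, L' a = a * L' 1 := fun a => by
    have := eq_mulE_of_comm L' hLk a 1
    rwa [mul_one] at this
  have hM1 : ∀ a, M' a = a * M' 1 := fun a => by
    have := eq_mulE_of_comm M' hMk a 1
    rwa [mul_one] at this
  have hL10 : L' 1 ≠ 0 := by
    intro h
    apply hc
    apply LinearMap.ext
    intro a
    show L' a = 0
    rw [hL1, h, mul_zero]
  have hM10 : M' 1 ≠ 0 := by
    intro h
    apply hd
    apply LinearMap.ext
    intro a
    show M' a = 0
    rw [hM1, h, mul_zero]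
  intro h0
  rw [h0, adn_zero] at h1
  have h3 : (ad (mulE (x 0)))^[c + d] ((a + b).choose a •
      ((ad (mulE (x 1)))^[a] L * (ad (mulE (x 1)))^[b] M)) = 0 := by rw [← h1, adn_zero]
  rw [adn_nsmul, h2] at h3
  have h4 := LinearMap.congr_fun h3 1
  simp only [LinearMap.smul_apply, Module.End.mul_apply, LinearMap.zero_apply] at h4
  rw [← hL', ← hM', hL1, smul_smul, nsmul_eq_mul] at h4
  have hch : (((a + b).choose a * (c + d).choose c : ℕ) : K) ≠ 0 := by
    have : (a + b).choose a * (c + d).choose c ≠ 0 :=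
      Nat.mul_ne_zero (Nat.choose_pos (by omega)).ne' (Nat.choose_pos (by omega)).ne'
    exact_mod_cast this
  exact (mul_ne_zero hch (mul_ne_zero hM10 hL10)) h4

instance : NoZeroDivisors AA where
  eq_zero_or_eq_zero_of_mul_eq_zero := by
    intro a b h
    by_contra hc
    push Not at hc
    apply AA_mul_ne_zero a b a.2 b.2 (fun h => hc.1 (Subtype.ext h)) (fun h => hc.2 (Subtype.ext h))
    exact congrArg Subtype.val h

instance : Nontrivial AA := ⟨⟨0, 1, by
  intro h
  have h1 := congrArg Subtype.val h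
  have := LinearMap.congr_fun h1 1
  simp at this⟩⟩

instance : CharZero AA := charZero_of_injective_algebraMap (algebraMap ℂ AA).injective

def mulA (a : K) : AA := ⟨mulE a, mulE_mem a⟩

def derA (D : Derivation ℂ K K) : AA := ⟨derE D, derE_mem D⟩

lemma coe_ad (s L : AA) : ((ad s L : AA) : E) = ad (s : E) (L : E) := rfl

lemma coe_adn (s L : AA) (n : ℕ) : (((ad s)^[n] L : AA) : E) = (ad (s : E))^[n] (L : E) := by
  induction n with
  | zero => rfl
  | succ n ih => rw [Function.iterate_succ_apply', Function.iterate_succ_apply', coe_ad, ih]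

lemma AA_nilp (i : Fin 2) (L : AA) : ∃ n, (ad (mulA (x i)))^[n] L = 0 := by
  obtain ⟨n, hn⟩ := L.2 i
  refine ⟨n, Subtype.ext ?_⟩
  rw [coe_adn]
  exact hn

/-! ### the swap -/

lemma exists_swap : ∃ σ : K →ₐ[ℂ] K, σ (x 0) = x 1 ∧ σ (x 1) = x 0 := by
  let e : P2 →ₐ[ℂ] P2 := MvPolynomial.rename (Equiv.swap (0 : Fin 2) 1)
  have he : Function.Injective e := MvPolynomial.rename_injective _ (Equiv.injective _)
  have hu : ∀ y : nonZeroDivisors P2, IsUnit (((IsScalarTower.toAlgHom ℂ P2 K).comp e) (y : P2)) := by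
    intro y
    rw [isUnit_iff_ne_zero, AlgHom.comp_apply]
    intro h
    have h1 : e y = 0 := IsFractionRing.injective P2 K (by simpa using h)
    have h2 : (y : P2) = 0 := he (by rw [h1, map_zero])
    exact nonZeroDivisors.ne_zero y.2 h2
  let σ : K →ₐ[ℂ] K := IsLocalization.liftAlgHom (M := nonZeroDivisors P2)
    (f := (IsScalarTower.toAlgHom ℂ P2 K).comp e) hu
  have hσ : ∀ p : P2, σ (algebraMap P2 K p) = algebraMap P2 K (e p) := by
    intro p
    exact IsLocalization.lift_eq _ p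
  refine ⟨σ, ?_, ?_⟩
  · rw [x, hσ]
    simp [e, x]
  · rw [x, hσ]
    simp [e, x]

def sw : K →ₐ[ℂ] K := exists_swap.choose

lemma sw0 : sw (x 0) = x 1 := exists_swap.choose_spec.1
lemma sw1 : sw (x 1) = x 0 := exists_swap.choose_spec.2

lemma sw_sw (a : K) : sw (sw a) = a := by
  refine ind_K (fun a => sw (sw a) = a) ?_ ?_ ?_ ?_ ?_ a
  · intro c; simp
  · intro i
    fin_cases i
    · show sw (sw (x 0)) = x 0
      rw [sw0, sw1]
    · show sw (sw (x 1)) = x 1
      rw [sw1, sw0]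
  · intro a b ha hb; rw [map_add, map_add, ha, hb]
  · intro a b ha hb; rw [map_mul, map_mul, ha, hb]
  · intro a b ha hb _; rw [map_div₀, map_div₀, ha, hb]

/-- conjugate of a derivation by the swap -/
def conjD (D : Derivation ℂ K K) : Derivation ℂ K K :=
  Derivation.mk' (sw.toLinearMap ∘ₗ (D : K →ₗ[ℂ] K) ∘ₗ sw.toLinearMap) (by
    intro a b
    simp only [LinearMap.comp_apply, AlgHom.toLinearMap_apply, map_mul]
    change sw (D (sw a * sw b)) = _
    rw [Derivation.leibniz]
    simp only [smul_eq_mul, map_add, map_mul, sw_sw]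
    rfl)

lemma conjD_apply (D : Derivation ℂ K K) (a : K) : conjD D a = sw (D (sw a)) := rfl

/-- operators commuting with the swap -/
def CC : Subalgebra ℂ E where
  carrier := {L | L ∈ AA ∧ ∀ a, L (sw a) = sw (L a)}
  mul_mem' := by
    intro L M hL hM
    refine ⟨AA.mul_mem hL.1 hM.1, fun a => ?_⟩
    show L (M (sw a)) = sw (L (M a))
    rw [hM.2, hL.2]
  add_mem' := by
    intro L M hL hM
    refine ⟨AA.add_mem hL.1 hM.1, fun a => ?_⟩
    show L (sw a) + M (sw a) = sw (L a + M a)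
    rw [hM.2, hL.2, map_add]
  algebraMap_mem' := by
    intro r
    refine ⟨AA.algebraMap_mem r, fun a => ?_⟩
    show (algebraMap ℂ E r) (sw a) = sw ((algebraMap ℂ E r) a)
    rw [Module.algebraMap_end_apply, Module.algebraMap_end_apply]
    exact (LinearMap.map_smul sw.toLinearMap r a).symm

lemma mulE_mem_CC (a : K) (h : sw a = a) : mulE a ∈ CC := by
  refine ⟨mulE_mem a, fun b => ?_⟩
  show a * sw b = sw (a * b)
  rw [map_mul, h]

lemma derE_mem_CC (D : Derivation ℂ K K) (h : conjD D = D) : derE D ∈ CC := by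
  refine ⟨derE_mem D, fun b => ?_⟩
  show D (sw b) = sw (D b)
  nth_rewrite 2 [← h]
  rw [conjD_apply, sw_sw]

/-- the inclusion `CC ⊆ AA` -/
def inc : CC →ₐ[ℂ] AA := Subalgebra.inclusion (fun _ h => h.1)

lemma coe_inc (L : CC) : ((inc L : AA) : E) = (L : E) := rfl

lemma ne_of_mem_CC (L : CC) (i : Fin 2) : inc L ≠ mulA (x i) := by
  intro h
  have h1 := L.2.2 1
  have h2 : (L : E) = mulE (x i) := congrArg Subtype.val h
  rw [h2, mulE_apply, mulE_apply] at h1
  rw [map_one, mul_one] at h1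
  fin_cases i
  · change x 0 = sw (x 0) at h1
    rw [sw0, x_inj] at h1
    exact absurd h1 (by decide)
  · change x 1 = sw (x 1) at h1
    rw [sw1, x_inj] at h1
    exact absurd h1 (by decide)

/-! ### The symmetric coordinates -/

/-- `∂/∂p` -/
def Dp : Derivation ℂ K K := (x 0 - x 1)⁻¹ • (x 0 • pd 0 - x 1 • pd 1)

/-- `∂/∂q` -/
def Dq : Derivation ℂ K K := (x 0 - x 1)⁻¹ • (pd 1 - pd 0)

lemma Dp_x0 : Dp (x 0) = (x 0 - x 1)⁻¹ * x 0 := by
  simp [Dp, pd_x]

lemma Dp_x1 : Dp (x 1) = - ((x 0 - x 1)⁻¹ * x 1) := by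
  simp [Dp, pd_x]

lemma Dq_x0 : Dq (x 0) = - (x 0 - x 1)⁻¹ := by
  simp [Dq, pd_x]

lemma Dq_x1 : Dq (x 1) = (x 0 - x 1)⁻¹ := by
  simp [Dq, pd_x]

lemma Dp_p : Dp (x 0 + x 1) = 1 := by
  rw [map_add, Dp_x0, Dp_x1]
  have := x01
  field_simp
  ring

lemma Dp_q : Dp (x 0 * x 1) = 0 := by
  rw [Derivation.leibniz, Dp_x0, Dp_x1]
  simp only [smul_eq_mul]
  ring

lemma Dq_p : Dq (x 0 + x 1) = 0 := by
  rw [map_add, Dq_x0, Dq_x1]
  ring

lemma Dq_q : Dq (x 0 * x 1) = 1 := by
  rw [Derivation.leibniz, Dq_x0, Dq_x1]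
  have := x01
  simp only [smul_eq_mul]
  field_simp
  ring

lemma Dpq : ⁅Dp, Dq⁆ = 0 := by
  apply der_ext_K
  have h := x01
  have e1 : Dp (x 0 - x 1)⁻¹ = -(x 0 - x 1)⁻¹ ^ 2 * ((x 0 - x 1)⁻¹ * (x 0 + x 1)) := by
    rw [Derivation.leibniz_inv, map_sub, Dp_x0, Dp_x1, smul_eq_mul]
    ring
  have e2 : Dq (x 0 - x 1)⁻¹ = (x 0 - x 1)⁻¹ ^ 2 * (2 * (x 0 - x 1)⁻¹) := by
    rw [Derivation.leibniz_inv, map_sub, Dq_x0, Dq_x1, smul_eq_mul]
    ring
  intro i
  fin_cases i
  · show (⁅Dp, Dq⁆ : Derivation ℂ K K) (x 0) = 0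
    rw [Derivation.commutator_apply, Dp_x0, Dq_x0, map_neg, e1, Derivation.leibniz, e2, Dq_x0]
    simp only [smul_eq_mul]
    field_simp
    ring
  · show (⁅Dp, Dq⁆ : Derivation ℂ K K) (x 1) = 0
    rw [Derivation.commutator_apply, Dp_x1, Dq_x1, map_neg, e1, Derivation.leibniz, e2, Dq_x1]
    simp only [smul_eq_mul]
    field_simp
    ring

lemma swinv : sw (x 0 - x 1)⁻¹ = - (x 0 - x 1)⁻¹ := by
  rw [map_inv₀, map_sub, sw0, sw1, ← neg_sub]
  exact inv_neg

lemma conj_Dp : conjD Dp = Dp := by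
  apply der_ext_K
  intro i
  fin_cases i
  · show conjD Dp (x 0) = Dp (x 0)
    rw [conjD_apply, sw0, Dp_x1, Dp_x0, map_neg, map_mul, swinv, sw1]
    ring
  · show conjD Dp (x 1) = Dp (x 1)
    rw [conjD_apply, sw1, Dp_x1, Dp_x0, map_mul, swinv, sw0]
    ring

lemma conj_Dq : conjD Dq = Dq := by
  apply der_ext_K
  intro i
  fin_cases i
  · show conjD Dq (x 0) = Dq (x 0)
    rw [conjD_apply, sw0, Dq_x1, Dq_x0, swinv]
  · show conjD Dq (x 1) = Dq (x 1)
    rw [conjD_apply, sw1, Dq_x1, Dq_x0, map_neg, swinv, neg_neg]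

/-! ### elements of `CC` -/

def cp : CC := ⟨mulE (x 0 + x 1), mulE_mem_CC _ (by rw [map_add, sw0, sw1, add_comm])⟩
def cq : CC := ⟨mulE (x 0 * x 1), mulE_mem_CC _ (by rw [map_mul, sw0, sw1, mul_comm])⟩
def cpi : CC := ⟨mulE (x 0 + x 1)⁻¹, mulE_mem_CC _ (by rw [map_inv₀, map_add, sw0, sw1, add_comm])⟩
def cqi : CC := ⟨mulE (x 0 * x 1)⁻¹, mulE_mem_CC _ (by rw [map_inv₀, map_mul, sw0, sw1, mul_comm])⟩
def cdp : CC := ⟨derE Dp, derE_mem_CC _ conj_Dp⟩
def cdq : CC := ⟨derE Dq, derE_mem_CC _ conj_Dq⟩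

lemma CC_ext (a b : CC) (h : (a : E) = (b : E)) : a = b := Subtype.ext h

lemma cpq : cp * cq = cq * cp := by
  apply CC_ext
  show mulE _ * mulE _ = mulE _ * mulE _
  rw [← map_mul, ← map_mul, mul_comm]

lemma cdpq : cdp * cdq = cdq * cdp := CC_ext _ _ (derE_comm _ _ Dpq)

lemma cdpp : cdp * cp = cp * cdp + 1 := by
  apply CC_ext
  show derE Dp * mulE (x 0 + x 1) = mulE (x 0 + x 1) * derE Dp + 1
  rw [derE_mulE, Dp_p, map_one]

lemma cdpq' : cdp * cq = cq * cdp := by
  apply CC_ext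
  show derE Dp * mulE (x 0 * x 1) = mulE (x 0 * x 1) * derE Dp
  rw [derE_mulE, Dp_q, map_zero, add_zero]

lemma cdqp : cdq * cp = cp * cdq := by
  apply CC_ext
  show derE Dq * mulE (x 0 + x 1) = mulE (x 0 + x 1) * derE Dq
  rw [derE_mulE, Dq_p, map_zero, add_zero]

lemma cdqq : cdq * cq = cq * cdq + 1 := by
  apply CC_ext
  show derE Dq * mulE (x 0 * x 1) = mulE (x 0 * x 1) * derE Dq + 1
  rw [derE_mulE, Dq_q, map_one]

lemma p_ne : x 0 + x 1 ≠ 0 := by
  intro h
  have h1 := congrArg Dp h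
  rw [Dp_p, map_zero] at h1
  exact one_ne_zero h1

lemma q_ne : x 0 * x 1 ≠ 0 := by
  intro h
  have h1 := congrArg Dq h
  rw [Dq_q, map_zero] at h1
  exact one_ne_zero h1

lemma cpcpi : cp * cpi = 1 := by
  apply CC_ext
  show mulE _ * mulE _ = 1
  rw [← map_mul, mul_inv_cancel₀ p_ne, map_one]

lemma cpicp : cpi * cp = 1 := by
  apply CC_ext
  show mulE _ * mulE _ = 1
  rw [← map_mul, inv_mul_cancel₀ p_ne, map_one]

lemma cqcqi : cq * cqi = 1 := by
  apply CC_ext
  show mulE _ * mulE _ = 1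
  rw [← map_mul, mul_inv_cancel₀ q_ne, map_one]

lemma cqicq : cqi * cq = 1 := by
  apply CC_ext
  show mulE _ * mulE _ = 1
  rw [← map_mul, inv_mul_cancel₀ q_ne, map_one]

/-! ### the original coordinates -/

def a₁ : AA := mulA (x 0)
def a₂ : AA := mulA (x 1)
def b₁ : AA := derA (pd 0)
def b₂ : AA := derA (pd 1)

lemma h11 : b₁ * a₁ = a₁ * b₁ + 1 := by
  apply Subtype.ext
  show derE (pd 0) * mulE (x 0) = mulE (x 0) * derE (pd 0) + 1
  rw [derE_mulE, pd_x]
  simp

lemma h22 : b₂ * a₂ = a₂ * b₂ + 1 := by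
  apply Subtype.ext
  show derE (pd 1) * mulE (x 1) = mulE (x 1) * derE (pd 1) + 1
  rw [derE_mulE, pd_x]
  simp

lemma h12 : b₁ * a₂ = a₂ * b₁ := by
  apply Subtype.ext
  show derE (pd 0) * mulE (x 1) = mulE (x 1) * derE (pd 0)
  rw [derE_mulE, pd_x]
  simp

lemma h21 : b₂ * a₁ = a₁ * b₂ := by
  apply Subtype.ext
  show derE (pd 1) * mulE (x 0) = mulE (x 0) * derE (pd 1)
  rw [derE_mulE, pd_x]
  simp

lemma hne : 1 + (a₁ - a₂) * b₁ * ((a₁ - a₂) * b₂) ≠ 0 := by
  intro h
  have h1 : (1 : E) + (mulE (x 0) - mulE (x 1)) * derE (pd 0) *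
      ((mulE (x 0) - mulE (x 1)) * derE (pd 1)) = 0 := congrArg Subtype.val h
  have h2 := LinearMap.congr_fun h1 1
  simp only [LinearMap.add_apply, Module.End.mul_apply, Module.End.one_apply, derE_apply,
    Derivation.map_one_eq_zero, map_zero, add_zero, LinearMap.zero_apply] at h2
  exact one_ne_zero h2

/-- The obstruction for the concrete sequence. -/
theorem core_concrete {ι : Type*} [Fintype ι] (T : ι → CC) (hT : ∀ i j, T i * T j = T j * T i)
    (D : ι → CC) (N : ι → ℕ) (V : ι → ℕ → CC)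
    (hs : ∀ n : ℕ, a₁ ^ n * b₁ + a₂ ^ n * b₂ = inc (∑ j, (T j ^ n * D j +
      ∑ i ∈ Finset.range (N j), (n.choose (i + 1) : CC) * (T j ^ (n - (i + 1)) * V j i)) : CC)) :
    False := by
  refine core a₁ a₂ b₁ b₂ h11 h22 h12 h21 (AA_nilp 0) (AA_nilp 1) hne
    (fun j => inc (T j)) ?_ (fun i => ne_of_mem_CC (T i) 0) (fun i => ne_of_mem_CC (T i) 1)
    (fun j => inc (D j)) N (fun j i => inc (V j i)) ?_
  · intro i j
    simp only [← map_mul, hT i j]
  · intro n
    rw [hs n]
    simp only [map_sum, map_add, map_mul, map_pow, map_natCast]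

end Q8.WF
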