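import Mathlib
import Pool.Agent.Q8.WF.Defs
import Pool.Agent.Q8.WF.Ops

/-!
The homomorphism `φ : U(W_{-1}) → A_2` which does not factor.
-/

open scoped TensorProduct DirectSum Polynomial LaurentPolynomial

attribute [local instance 100] LieRing.ofAssociativeRing

noncomputable section

namespace Q8.WF

section Lucas

variable {B : Type*} [Ring B] [Algebra ℂ B]

/-- Lucas sequence `P_n = t₁^n + t₂^n` in terms of `p, q`. -/
def lucP (p q : B) : ℕ → B
  | 0 => 2
  | 1 => p
  | (n + 2) => p * lucP p q (n + 1) - q * lucP p q n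

/-- the sequence `t₂ t₁^n + t₁ t₂^n`. -/
def lucQ (p q : B) : ℕ → B
  | 0 => p
  | 1 => 2 * q
  | (n + 2) => p * lucQ p q (n + 1) - q * lucQ p q n

/-- `X_n = φ(t^n ∂)`. -/
def lucX (p q dp dq : B) (n : ℕ) : B := lucP p q n * dp + lucQ p q n * dq

lemma lucX_rec (p q dp dq : B) (n : ℕ) :
    lucX p q dp dq (n + 2) = p * lucX p q dp dq (n + 1) - q * lucX p q dp dq n := by
  simp only [lucX, lucP, lucQ]
  noncomm_ring

lemma lucP_comm (p q y : B) (hp : y * p = p * y) (hq : y * q = q * y) :
    ∀ n, y * lucP p q n = lucP p q n * y := by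
  have key : ∀ n, y * lucP p q n = lucP p q n * y ∧ y * lucP p q (n + 1) = lucP p q (n + 1) * y := by
    intro n
    induction n with
    | zero =>
      refine ⟨?_, hp⟩
      show y * 2 = 2 * y
      rw [mul_two, two_mul]
    | succ n ih =>
      refine ⟨ih.2, ?_⟩
      show y * (p * lucP p q (n + 1) - q * lucP p q n) = (p * lucP p q (n + 1) - q * lucP p q n) * y
      rw [mul_sub, sub_mul, ← mul_assoc, ← mul_assoc, hp, hq, mul_assoc, mul_assoc, ih.1, ih.2]
      noncomm_ring
  exact fun n => (key n).1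

lemma lucQ_comm (p q y : B) (hp : y * p = p * y) (hq : y * q = q * y) :
    ∀ n, y * lucQ p q n = lucQ p q n * y := by
  have key : ∀ n, y * lucQ p q n = lucQ p q n * y ∧ y * lucQ p q (n + 1) = lucQ p q (n + 1) * y := by
    intro n
    induction n with
    | zero =>
      refine ⟨hp, ?_⟩
      show y * (2 * q) = 2 * q * y
      rw [← mul_assoc, mul_two, ← two_mul, mul_assoc, hq, mul_assoc]
    | succ n ih =>
      refine ⟨ih.2, ?_⟩
      show y * (p * lucQ p q (n + 1) - q * lucQ p q n) = (p * lucQ p q (n + 1) - q * lucQ p q n) * y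
      rw [mul_sub, sub_mul, ← mul_assoc, ← mul_assoc, hp, hq, mul_assoc, mul_assoc, ih.1, ih.2]
      noncomm_ring
  exact fun n => (key n).1

variable (p q dp dq : B) (hpq : p * q = q * p) (hdd : dp * dq = dq * dp)
  (hpp : dp * p = p * dp + 1) (hpq' : dp * q = q * dp) (hqp : dq * p = p * dq)
  (hqq : dq * q = q * dq + 1)

include hpq hpp hqp in
lemma lucX_p (n : ℕ) : lucX p q dp dq n * p = p * lucX p q dp dq n + lucP p q n := by
  have h1 := lucP_comm p q p rfl hpq n
  have h2 := lucQ_comm p q p rfl hpq n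
  rw [lucX, add_mul, mul_assoc, mul_assoc, hpp, hqp, mul_add, mul_add, ← mul_assoc, ← mul_assoc,
    ← h1, ← h2]
  noncomm_ring

include hpq hpq' hqq in
lemma lucX_q (n : ℕ) : lucX p q dp dq n * q = q * lucX p q dp dq n + lucQ p q n := by
  have h1 := lucP_comm p q q hpq.symm rfl n
  have h2 := lucQ_comm p q q hpq.symm rfl n
  rw [lucX, add_mul, mul_assoc, mul_assoc, hqq, hpq', mul_add, mul_add, ← mul_assoc, ← mul_assoc,
    ← h1, ← h2]
  noncomm_ring

include hpq in
lemma lucX_id (n : ℕ) : ∀ m : ℕ, lucP p q m * lucX p q dp dq (n + 1) -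
    lucQ p q m * lucX p q dp dq n =
    2 * lucX p q dp dq (m + n + 1) - p * lucX p q dp dq (m + n) := by
  have key : ∀ m, (lucP p q m * lucX p q dp dq (n + 1) - lucQ p q m * lucX p q dp dq n =
      2 * lucX p q dp dq (m + n + 1) - p * lucX p q dp dq (m + n)) ∧
      (lucP p q (m + 1) * lucX p q dp dq (n + 1) - lucQ p q (m + 1) * lucX p q dp dq n =
      2 * lucX p q dp dq (m + 1 + n + 1) - p * lucX p q dp dq (m + 1 + n)) := by
    intro m
    induction m with
    | zero =>
      constructor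
      · rw [Nat.zero_add]; rfl
      · rw [show 0 + 1 + n + 1 = n + 2 by ring, show 0 + 1 + n = n + 1 by ring, lucX_rec]
        show p * _ - 2 * q * _ = _
        noncomm_ring
    | succ m ih =>
      refine ⟨ih.2, ?_⟩
      rw [show m + 1 + 1 + n + 1 = (m + n + 1) + 2 by ring, show m + 1 + 1 + n = (m + n) + 2 by ring,
        lucX_rec, lucX_rec]
      have h1 := ih.1
      have h2 := ih.2
      rw [show m + 1 + n + 1 = m + n + 2 by ring, show m + 1 + n = m + n + 1 by ring] at h2
      rw [lucX_rec] at h2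
      show (p * lucP p q (m + 1) - q * lucP p q m) * _ - (p * lucQ p q (m + 1) - q * lucQ p q m) * _
        = _
      have e1 : (p * lucP p q (m + 1) - q * lucP p q m) * lucX p q dp dq (n + 1) -
          (p * lucQ p q (m + 1) - q * lucQ p q m) * lucX p q dp dq n =
          p * (lucP p q (m + 1) * lucX p q dp dq (n + 1) - lucQ p q (m + 1) * lucX p q dp dq n) -
          q * (lucP p q m * lucX p q dp dq (n + 1) - lucQ p q m * lucX p q dp dq n) := by
        noncomm_ring
      rw [e1, h1, h2]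
      have e2 : ∀ a b : B, q * (p * a) = p * (q * a) := fun a _ => by
        rw [← mul_assoc, ← hpq, mul_assoc]
      have e3 := e2 (lucX p q dp dq (m + n)) 0
      simp only [mul_sub, two_mul, mul_add]
      rw [e3]
      abel
  exact fun m => (key m).1

include hpq hpp hpq' hqp hqq in
lemma lucX_step (m n : ℕ)
    (h0 : lucX p q dp dq m * lucX p q dp dq n - lucX p q dp dq n * lucX p q dp dq m =
      ((n : ℂ) - m) • lucX p q dp dq (m + n - 1))
    (h1 : lucX p q dp dq m * lucX p q dp dq (n + 1) - lucX p q dp dq (n + 1) * lucX p q dp dq m =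
      (((n + 1 : ℕ) : ℂ) - m) • lucX p q dp dq (m + (n + 1) - 1)) :
    lucX p q dp dq m * lucX p q dp dq (n + 2) - lucX p q dp dq (n + 2) * lucX p q dp dq m =
      (((n + 2 : ℕ) : ℂ) - m) • lucX p q dp dq (m + (n + 2) - 1) := by
  set X := lucX p q dp dq with hX
  have hXp := lucX_p p q dp dq hpq hpp hqp m
  have hXq := lucX_q p q dp dq hpq hpq' hqq m
  have hid := lucX_id p q dp dq hpq n m
  rw [← hX] at hXp hXq hid
  have e1 : X m * X (n + 2) - X (n + 2) * X m = lucP p q m * X (n + 1) - lucQ p q m * X n +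
      p * (X m * X (n + 1) - X (n + 1) * X m) - q * (X m * X n - X n * X m) := by
    rw [show X (n + 2) = p * X (n + 1) - q * X n from lucX_rec p q dp dq n, mul_sub, ← mul_assoc,
      ← mul_assoc, hXp, hXq]
    noncomm_ring
  rw [e1, hid, h0, h1]
  rw [show m + (n + 2) - 1 = m + n + 1 by omega, show m + (n + 1) - 1 = m + n by omega]
  rcases Nat.eq_zero_or_pos (m + n) with hmn | hmn
  · have hm : m = 0 := by omega
    have hn : n = 0 := by omega
    subst hm; subst hn
    simp
    rw [two_mul, two_smul]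
  · obtain ⟨k, hk⟩ := Nat.exists_eq_succ_of_ne_zero hmn.ne'
    rw [hk, show k.succ - 1 = k by simp, show X (k.succ + 1) = p * X (k + 1) - q * X k from
      lucX_rec p q dp dq k]
    simp only [Nat.succ_eq_add_one, mul_smul_comm]
    push_cast
    have e5 : (2 : B) * (p * X (k + 1) - q * X k) = (2 : ℂ) • (p * X (k + 1) - q * X k) := by
      rw [two_mul, two_smul]
    rw [e5]
    module

include hpq hdd hpp hpq' hqp hqq in
lemma lucX_bracket (m n : ℕ) :
    lucX p q dp dq m * lucX p q dp dq n - lucX p q dp dq n * lucX p q dp dq m =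
      ((n : ℂ) - m) • lucX p q dp dq (m + n - 1) := by
  have two : ∀ m, (lucX p q dp dq m * lucX p q dp dq 0 - lucX p q dp dq 0 * lucX p q dp dq m =
      (((0 : ℕ) : ℂ) - m) • lucX p q dp dq (m + 0 - 1)) →
      (lucX p q dp dq m * lucX p q dp dq 1 - lucX p q dp dq 1 * lucX p q dp dq m =
      (((1 : ℕ) : ℂ) - m) • lucX p q dp dq (m + 1 - 1)) →
      ∀ n, lucX p q dp dq m * lucX p q dp dq n - lucX p q dp dq n * lucX p q dp dq m =
      ((n : ℂ) - m) • lucX p q dp dq (m + n - 1) := by
    intro m h0 h1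
    have key : ∀ n, (lucX p q dp dq m * lucX p q dp dq n - lucX p q dp dq n * lucX p q dp dq m =
      ((n : ℂ) - m) • lucX p q dp dq (m + n - 1)) ∧
      (lucX p q dp dq m * lucX p q dp dq (n + 1) - lucX p q dp dq (n + 1) * lucX p q dp dq m =
      (((n + 1 : ℕ) : ℂ) - m) • lucX p q dp dq (m + (n + 1) - 1)) := by
      intro n
      induction n with
      | zero => exact ⟨h0, h1⟩
      | succ n ih => exact ⟨ih.2, lucX_step p q dp dq hpq hpp hpq' hqp hqq m n ih.1 ih.2⟩
    exact fun n => (key n).1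
  have anti : ∀ m n, (lucX p q dp dq m * lucX p q dp dq n - lucX p q dp dq n * lucX p q dp dq m =
      ((n : ℂ) - m) • lucX p q dp dq (m + n - 1)) →
      (lucX p q dp dq n * lucX p q dp dq m - lucX p q dp dq m * lucX p q dp dq n =
      ((m : ℂ) - n) • lucX p q dp dq (n + m - 1)) := by
    intro m n h
    rw [← neg_sub, h, ← neg_smul, neg_sub, add_comm m n]
  have h00 : lucX p q dp dq 0 * lucX p q dp dq 0 - lucX p q dp dq 0 * lucX p q dp dq 0 =
      (((0 : ℕ) : ℂ) - (0 : ℕ)) • lucX p q dp dq (0 + 0 - 1) := by simp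
  have h11 : lucX p q dp dq 1 * lucX p q dp dq 1 - lucX p q dp dq 1 * lucX p q dp dq 1 =
      (((1 : ℕ) : ℂ) - (1 : ℕ)) • lucX p q dp dq (1 + 1 - 1) := by simp
  have h01 : lucX p q dp dq 0 * lucX p q dp dq 1 - lucX p q dp dq 1 * lucX p q dp dq 0 =
      (((1 : ℕ) : ℂ) - (0 : ℕ)) • lucX p q dp dq (0 + 1 - 1) := by
    have hXp := lucX_p p q dp dq hpq hpp hqp 0
    have hXq := lucX_q p q dp dq hpq hpq' hqq 0
    have e1 : lucX p q dp dq 1 = p * dp + 2 * q * dq := rfl
    have e0 : lucX p q dp dq 0 = 2 * dp + p * dq := rfl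
    rw [show lucP p q 0 = 2 from rfl] at hXp
    rw [show lucQ p q 0 = p from rfl] at hXq
    have s1 : lucX p q dp dq 0 * lucX p q dp dq 1 = (lucX p q dp dq 0 * p) * dp +
        2 * ((lucX p q dp dq 0 * q) * dq) := by
      rw [e1]
      noncomm_ring
    rw [s1, hXp, hXq, e1, e0]
    have s2 : (p * (2 * dp + p * dq) + 2) * dp + 2 * ((q * (2 * dp + p * dq) + p) * dq) -
        (p * dp + 2 * q * dq) * (2 * dp + p * dq) =
        2 * dp + 2 * p * dq + p * (p * (dq * dp)) + 2 * (q * (2 * (dp * dq) + p * (dq * dq))) -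
        p * (dp * p) * dq - 2 * (q * (dq * (2 * dp))) - 2 * (q * (dq * p * dq)) := by
      noncomm_ring
    rw [s2, hpp, hqp, ← hdd]
    rw [Nat.cast_one, Nat.cast_zero, sub_zero, one_smul]
    have s3 : q * (dq * (2 * dp)) = q * (2 * (dp * dq)) := by
      rw [two_mul, two_mul, mul_add, hdd]
    rw [s3]
    noncomm_ring
  have hn0 := two 0 h00 h01
  have hn1 := two 1 (anti 0 1 h01) h11
  exact two m (anti 0 m (hn0 m)) (anti 1 m (hn1 m)) n

/-- The linear map `f ↦ φ(f∂)`. -/
def lucL : ℂ[X] →ₗ[ℂ] B := (Polynomial.basisMonomials ℂ).constr ℂ (lucX p q dp dq)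

lemma lucL_monomial (n : ℕ) (a : ℂ) :
    lucL p q dp dq (Polynomial.monomial n a) = a • lucX p q dp dq n := by
  have h : Polynomial.monomial n a = a • (Polynomial.basisMonomials ℂ n) := by
    rw [Polynomial.coe_basisMonomials, Polynomial.smul_monomial]
    simp
  rw [h, map_smul, lucL, Module.Basis.constr_basis]

include hpq hdd hpp hpq' hqp hqq in
lemma lucL_bracket (f g : ℂ[X]) :
    lucL p q dp dq f * lucL p q dp dq g - lucL p q dp dq g * lucL p q dp dq f =
      lucL p q dp dq (f * Polynomial.derivative g - g * Polynomial.derivative f) := by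
  induction f using Polynomial.induction_on' with
  | add f f' hf hf' =>
    have e1 : (f + f') * Polynomial.derivative g - g * Polynomial.derivative (f + f') =
      (f * Polynomial.derivative g - g * Polynomial.derivative f) +
      (f' * Polynomial.derivative g - g * Polynomial.derivative f') := by
      rw [map_add]; ring
    rw [e1, map_add, map_add, ← hf, ← hf']
    noncomm_ring
  | monomial m a =>
    induction g using Polynomial.induction_on' with
    | add g g' hg hg' =>
      have e1 : Polynomial.monomial m a * Polynomial.derivative (g + g') -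
          (g + g') * Polynomial.derivative (Polynomial.monomial m a) =
          (Polynomial.monomial m a * Polynomial.derivative g -
            g * Polynomial.derivative (Polynomial.monomial m a)) +
          (Polynomial.monomial m a * Polynomial.derivative g' -
            g' * Polynomial.derivative (Polynomial.monomial m a)) := by
        rw [map_add]; ring
      rw [e1, map_add, map_add, ← hg, ← hg']
      noncomm_ring
    | monomial n b =>
      have e1 : (Polynomial.monomial m a * Polynomial.derivative (Polynomial.monomial n b) -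
          Polynomial.monomial n b * Polynomial.derivative (Polynomial.monomial m a) : ℂ[X]) =
          Polynomial.monomial (m + n - 1) (a * b * ((n : ℂ) - m)) := by
        rw [Polynomial.derivative_monomial, Polynomial.derivative_monomial,
          Polynomial.monomial_mul_monomial, Polynomial.monomial_mul_monomial]
        have e2 : (Polynomial.monomial (m + (n - 1)) (a * (b * (n : ℂ))) : ℂ[X]) =
            Polynomial.monomial (m + n - 1) (a * b * n) := by
          rcases n with _ | n
          · simp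
          · rw [show m + (n + 1 - 1) = m + (n + 1) - 1 by omega]
            congr 1
            ring
        have e3 : (Polynomial.monomial (n + (m - 1)) (b * (a * (m : ℂ))) : ℂ[X]) =
            Polynomial.monomial (m + n - 1) (a * b * m) := by
          rcases m with _ | m
          · simp
          · rw [show n + (m + 1 - 1) = m + 1 + n - 1 by omega]
            congr 1
            ring
        rw [e2, e3, ← Polynomial.monomial_sub]
        congr 1
        ring
      rw [e1, lucL_monomial, lucL_monomial, lucL_monomial, smul_mul_smul_comm,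
        smul_mul_smul_comm, mul_comm b a, ← smul_sub,
        lucX_bracket p q dp dq hpq hdd hpp hpq' hqp hqq, smul_smul]

end Lucas

/-- The Lie homomorphism `W_{-1} → A_2`, `f∂ ↦ (f(t₁)+f(t₂)) ∂_p + (t₂f(t₁)+t₁f(t₂)) ∂_q`. -/
def phiLie : W1 →ₗ⁅ℂ⁆ Weyl 2 where
  toFun D := lucL (Weyl.t 0) (Weyl.t 1) (Weyl.d 0) (Weyl.d 1) (D Polynomial.X)
  map_add' D D' := by rw [Derivation.add_apply, map_add]
  map_smul' c D := by
    rw [Derivation.smul_apply, RingHom.id_apply]
    exact LinearMap.map_smul _ _ _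
  map_lie' := by
    intro D D'
    rw [LieRing.of_associative_ring_bracket]
    rw [lucL_bracket _ _ _ _ (Weyl.tt 0 1) (Weyl.dd 0 1) (by simpa using Weyl.dt (k := 2) 0 0)
      (by simpa using Weyl.dt (k := 2) 0 1) (by simpa using Weyl.dt (k := 2) 1 0)
      (by simpa using Weyl.dt (k := 2) 1 1)]
    congr 1
    rw [Derivation.commutator_apply, W1_apply D (D' _), W1_apply D' (D _)]
    ring

/-- The homomorphism `φ : U(W_{-1}) → A_2`. -/
def phi : UniversalEnvelopingAlgebra ℂ W1 →ₐ[ℂ] Weyl 2 := UniversalEnvelopingAlgebra.lift ℂ phiLie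

/-- `A_2` acting on `K` through the symmetric coordinates. -/
def Ec : Weyl 2 →ₐ[ℂ] CC := Weyl.lift ![cp, cq] ![cdp, cdq]
  (by
    intro i j
    fin_cases i <;> fin_cases j
    · rfl
    · exact cpq
    · exact cpq.symm
    · rfl)
  (by
    intro i j
    fin_cases i <;> fin_cases j
    · rfl
    · exact cdpq
    · exact cdpq.symm
    · rfl)
  (by
    intro i j
    fin_cases i <;> fin_cases j
    · simpa using cdpp
    · simpa using cdpq'
    · simpa using cdqp
    · simpa using cdqq)

lemma Ec_t0 : Ec (Weyl.t 0) = cp := Weyl.lift_t _ _ _ _ _ 0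
lemma Ec_t1 : Ec (Weyl.t 1) = cq := Weyl.lift_t _ _ _ _ _ 1
lemma Ec_d0 : Ec (Weyl.d 0) = cdp := Weyl.lift_d _ _ _ _ _ 0
lemma Ec_d1 : Ec (Weyl.d 1) = cdq := Weyl.lift_d _ _ _ _ _ 1

lemma map_lucP {B B' : Type*} [Ring B] [Ring B'] (h : B →+* B') (p q : B) :
    ∀ n, h (lucP p q n) = lucP (h p) (h q) n := by
  have key : ∀ n, h (lucP p q n) = lucP (h p) (h q) n ∧
      h (lucP p q (n + 1)) = lucP (h p) (h q) (n + 1) := by
    intro n
    induction n with
    | zero => exact ⟨map_ofNat h 2, rfl⟩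
    | succ n ih =>
      refine ⟨ih.2, ?_⟩
      simp only [lucP, map_sub, map_mul, ih.1, ih.2]
  exact fun n => (key n).1

lemma map_lucQ {B B' : Type*} [Ring B] [Ring B'] (h : B →+* B') (p q : B) :
    ∀ n, h (lucQ p q n) = lucQ (h p) (h q) n := by
  have key : ∀ n, h (lucQ p q n) = lucQ (h p) (h q) n ∧
      h (lucQ p q (n + 1)) = lucQ (h p) (h q) (n + 1) := by
    intro n
    induction n with
    | zero =>
      refine ⟨rfl, ?_⟩
      show h (2 * q) = 2 * h q
      rw [map_mul, map_ofNat]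
    | succ n ih =>
      refine ⟨ih.2, ?_⟩
      simp only [lucQ, map_sub, map_mul, ih.1, ih.2]
  exact fun n => (key n).1

lemma c0 : inc (2 * cdp + cp * cdq) = b₁ + b₂ := by
  apply Subtype.ext
  show (2 : E) * derE Dp + mulE (x 0 + x 1) * derE Dq = derE (pd 0) + derE (pd 1)
  rw [two_mul]
  apply LinearMap.ext
  intro b
  simp only [LinearMap.add_apply, Module.End.mul_apply, derE_apply, mulE_apply, Dp, Dq,
    Derivation.smul_apply, Derivation.sub_apply, smul_eq_mul]
  have := x01
  field_simp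
  ring

lemma c1 : inc (cp * cdp + 2 * cq * cdq) = a₁ * b₁ + a₂ * b₂ := by
  apply Subtype.ext
  show mulE (x 0 + x 1) * derE Dp + (2 : E) * mulE (x 0 * x 1) * derE Dq =
    mulE (x 0) * derE (pd 0) + mulE (x 1) * derE (pd 1)
  rw [two_mul]
  apply LinearMap.ext
  intro b
  simp only [LinearMap.add_apply, Module.End.mul_apply, derE_apply, mulE_apply, Dp, Dq,
    Derivation.smul_apply, Derivation.sub_apply, smul_eq_mul]
  have := x01
  field_simp
  ring

lemma inc_cp : inc cp = a₁ + a₂ := Subtype.ext (map_add mulE (x 0) (x 1))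
lemma inc_cq : inc cq = a₁ * a₂ := Subtype.ext (map_mul mulE (x 0) (x 1))

lemma aa : a₁ * a₂ = a₂ * a₁ := Subtype.ext xx

lemma lucX_CC (n : ℕ) : inc (lucX cp cq cdp cdq n) = a₁ ^ n * b₁ + a₂ ^ n * b₂ := by
  have key : ∀ n, (inc (lucX cp cq cdp cdq n) = a₁ ^ n * b₁ + a₂ ^ n * b₂) ∧
      (inc (lucX cp cq cdp cdq (n + 1)) = a₁ ^ (n + 1) * b₁ + a₂ ^ (n + 1) * b₂) := by
    intro n
    induction n with
    | zero =>
      constructor
      · have := c0
        simp only [pow_zero, one_mul]
        exact this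
      · have := c1
        simp only [zero_add, pow_one]
        exact this
    | succ n ih =>
      refine ⟨ih.2, ?_⟩
      rw [show n + 1 + 1 = n + 2 by rfl, lucX_rec, map_sub, map_mul, map_mul, inc_cp, inc_cq,
        ih.1, ih.2]
      have e2 : a₂ * a₁ ^ (n + 1) = a₁ * a₂ * a₁ ^ n := by
        rw [pow_succ', ← mul_assoc, aa]
      have e3 : a₁ * a₂ ^ (n + 1) = a₁ * a₂ * a₂ ^ n := by
        rw [pow_succ', ← mul_assoc]
      have e4 : (a₁ + a₂) * (a₁ ^ (n + 1) * b₁ + a₂ ^ (n + 1) * b₂) =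
          a₁ * a₁ ^ (n + 1) * b₁ + a₂ * a₂ ^ (n + 1) * b₂ + a₂ * a₁ ^ (n + 1) * b₁ +
          a₁ * a₂ ^ (n + 1) * b₂ := by noncomm_ring
      rw [e4, e2, e3, show n + 2 = (n + 1) + 1 by rfl, pow_succ' a₁ (n + 1), pow_succ' a₂ (n + 1)]
      noncomm_ring
  exact (key n).1

lemma Ec_phi (n : ℕ) : inc (Ec (phi (UniversalEnvelopingAlgebra.ι ℂ
    (Polynomial.mkDerivation ℂ (Polynomial.X ^ n : ℂ[X]))))) =
    a₁ ^ n * b₁ + a₂ ^ n * b₂ := by
  have h1 : phi (UniversalEnvelopingAlgebra.ι ℂ (Polynomial.mkDerivation ℂ (Polynomial.X ^ n : ℂ[X])))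
      = lucX (Weyl.t 0) (Weyl.t 1) (Weyl.d 0) (Weyl.d 1) n := by
    rw [phi, UniversalEnvelopingAlgebra.lift_ι_apply]
    show lucL _ _ _ _ (Polynomial.mkDerivation ℂ (Polynomial.X ^ n : ℂ[X]) Polynomial.X) = _
    rw [Polynomial.mkDerivation_X, ← Polynomial.monomial_one_right_eq_X_pow, lucL_monomial,
      one_smul]
  rw [h1, lucX, map_add, map_mul, map_mul]
  have h2 := map_lucP (B := Weyl 2) (B' := CC) (Ec : Weyl 2 →+* CC) (Weyl.t 0) (Weyl.t 1) n
  have h3 := map_lucQ (B := Weyl 2) (B' := CC) (Ec : Weyl 2 →+* CC) (Weyl.t 0) (Weyl.t 1) n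
  simp only [RingHom.coe_coe, Ec_t0, Ec_t1] at h2 h3
  rw [h2, h3, Ec_d0, Ec_d1]
  exact lucX_CC n

lemma divDer_X_pow (m k : ℕ) : ((k.factorial : ℂ)⁻¹ • (Polynomial.derivative^[k]
    (Polynomial.X ^ m : ℂ[X]))) = ((m.choose k : ℕ) : ℂ[X]) * Polynomial.X ^ (m - k) := by
  rw [Polynomial.iterate_derivative_X_pow_eq_natCast_mul, Nat.descFactorial_eq_factorial_mul_choose]
  rw [Polynomial.smul_eq_C_mul, Nat.cast_mul, ← mul_assoc, ← mul_assoc]
  have h : (Polynomial.C ((k.factorial : ℂ)⁻¹) : ℂ[X]) * (k.factorial : ℂ[X]) = 1 := by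
    rw [← Polynomial.C_eq_natCast, ← Polynomial.C_mul, inv_mul_cancel₀, Polynomial.C_1]
    exact_mod_cast Nat.factorial_ne_zero k
  rw [h, one_mul]

/-- **Main theorem for `W_{-1}`.** -/
theorem main1 : ∃ φ : UniversalEnvelopingAlgebra ℂ W1 →ₐ[ℂ] Weyl 2,
    ∀ (k : ℕ) (n : Fin k → ℕ),
      ¬ ∃ φbar : AU n →+* Weyl 2, ∀ u, φ u = φbar (Psi n u) := by
  refine ⟨phi, ?_⟩
  rintro k n ⟨φbar, h⟩
  let Θ : AU n →+* CC := (Ec : Weyl 2 →+* CC).comp φbar
  refine core_concrete (ι := Fin k) (fun j => Θ (AU.mk n (Weyl.t j) 1)) ?_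
    (fun j => Θ (AU.mk n (Weyl.d j) 1)) n (fun j i => Θ (AU.mk n 1 (vs n j i))) ?_
  · intro i j
    simp only [← map_mul, AU.mk_mul, Weyl.tt i j]
  · intro m
    rw [← Ec_phi m, h]
    congr 1
    show Θ (Psi n _) = _
    rw [Psi, UniversalEnvelopingAlgebra.lift_ι_apply]
    show Θ (PsiFun n _) = _
    rw [PsiFun, map_sum]
    apply Finset.sum_congr rfl
    intro j _
    rw [Polynomial.mkDerivation_X, map_add, map_sum]
    congr 1
    · rw [← map_pow, ← map_mul, AU.mk_pow, AU.mk_mul, one_mul, map_pow, Polynomial.aeval_X]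
    · apply Finset.sum_congr rfl
      intro i _
      rw [divDer_X_pow, map_mul, map_natCast, map_pow, Polynomial.aeval_X]
      rw [← map_pow, ← map_mul, AU.mk_pow, AU.mk_mul, one_mul, mul_one, ← map_natCast Θ, ← map_mul]
      congr 1
      rw [← nsmul_eq_mul, ← nsmul_eq_mul, AU.mk_nsmul]

end Q8.WF
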