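import Mathlib
import Pool.Agent.Q8.WF.DefsL
import Pool.Agent.Q8.WF.Main1

/-!
The homomorphism `φ : U(W) → Ã_2` which does not factor.
-/

open scoped TensorProduct DirectSum Polynomial LaurentPolynomial

attribute [local instance 100] LieRing.ofAssociativeRing

noncomputable section

namespace Q8.WF

open LaurentPolynomial (T C)

/-- two-step induction on `ℤ` -/
lemma zind (C : ℤ → Prop) (h0 : C 0) (h1 : C 1) (hf : ∀ n, C n → C (n + 1) → C (n + 2))
    (hb : ∀ n, C (n + 1) → C (n + 2) → C n) (n : ℤ) : C n := by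
  have key : C n ∧ C (n + 1) := by
    induction n using Int.induction_on with
    | zero => exact ⟨h0, by simpa using h1⟩
    | succ n ih =>
      refine ⟨ih.2, ?_⟩
      have := hf n ih.1 ih.2
      rwa [show (n : ℤ) + 1 + 1 = n + 2 by ring]
    | pred n ih =>
      refine ⟨?_, by rw [sub_add_cancel]; exact ih.1⟩
      apply hb
      · rw [sub_add_cancel]; exact ih.1
      · rw [show -(n : ℤ) - 1 + 2 = -n + 1 by ring]; exact ih.2
  exact key.1

section Lucas

variable {B : Type*} [Ring B] [Algebra ℂ B]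

/-- shift matrix of the recurrence -/
def recM (p q qi : B) (h1 : q * qi = 1) (h2 : qi * q = 1) : Equiv.Perm (B × B) where
  toFun v := (p * v.1 - q * v.2, v.1)
  invFun v := (v.2, qi * (p * v.2 - v.1))
  left_inv := by
    intro v
    refine Prod.ext rfl ?_
    show qi * (p * v.1 - (p * v.1 - q * v.2)) = v.2
    rw [sub_sub_cancel, ← mul_assoc, h2, one_mul]
  right_inv := by
    intro v
    refine Prod.ext ?_ rfl
    show p * v.2 - q * (qi * (p * v.2 - v.1)) = v.1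
    rw [← mul_assoc, h1, one_mul, sub_sub_cancel]

variable (p q qi : B) (h1 : q * qi = 1) (h2 : qi * q = 1)

/-- the two-sided solution of `a_{n+2} = p a_{n+1} - q a_n` with `a_1 = v.1`, `a_0 = v.2`. -/
def seqZ (v : B × B) (n : ℤ) : B := ((recM p q qi h1 h2 ^ n) v).2

lemma seqZ_zero (v : B × B) : seqZ p q qi h1 h2 v 0 = v.2 := rfl

lemma recM_succ (v : B × B) (n : ℤ) : (recM p q qi h1 h2 ^ (n + 1)) v =
    recM p q qi h1 h2 ((recM p q qi h1 h2 ^ n) v) := by
  rw [add_comm, zpow_add, zpow_one]; rfl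

lemma seqZ_succ (v : B × B) (n : ℤ) : seqZ p q qi h1 h2 v (n + 1) =
    ((recM p q qi h1 h2 ^ n) v).1 := by
  rw [seqZ, recM_succ]; rfl

lemma seqZ_one (v : B × B) : seqZ p q qi h1 h2 v 1 = v.1 := by
  have := seqZ_succ p q qi h1 h2 v 0
  simpa using this

lemma seqZ_rec (v : B × B) (n : ℤ) : seqZ p q qi h1 h2 v (n + 2) =
    p * seqZ p q qi h1 h2 v (n + 1) - q * seqZ p q qi h1 h2 v n := by
  rw [show n + 2 = (n + 1) + 1 by ring, seqZ_succ, seqZ_succ, recM_succ]
  rfl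

def PZ : ℤ → B := seqZ p q qi h1 h2 (p, 2)
def QZ : ℤ → B := seqZ p q qi h1 h2 (2 * q, p)

variable (dp dq : B)

def XZ (n : ℤ) : B := PZ p q qi h1 h2 n * dp + QZ p q qi h1 h2 n * dq

lemma PZ_rec (n : ℤ) : PZ p q qi h1 h2 (n + 2) =
    p * PZ p q qi h1 h2 (n + 1) - q * PZ p q qi h1 h2 n := seqZ_rec _ _ _ _ _ _ _
lemma QZ_rec (n : ℤ) : QZ p q qi h1 h2 (n + 2) =
    p * QZ p q qi h1 h2 (n + 1) - q * QZ p q qi h1 h2 n := seqZ_rec _ _ _ _ _ _ _
lemma PZ_zero : PZ p q qi h1 h2 0 = 2 := rfl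
lemma QZ_zero : QZ p q qi h1 h2 0 = p := rfl
lemma PZ_one : PZ p q qi h1 h2 1 = p := seqZ_one _ _ _ _ _ _
lemma QZ_one : QZ p q qi h1 h2 1 = 2 * q := seqZ_one _ _ _ _ _ _

lemma XZ_rec (n : ℤ) : XZ p q qi h1 h2 dp dq (n + 2) =
    p * XZ p q qi h1 h2 dp dq (n + 1) - q * XZ p q qi h1 h2 dp dq n := by
  rw [XZ, XZ, XZ, PZ_rec, QZ_rec]
  noncomm_ring

include h2 in
/-- backward form of a recurrence -/
lemma back {a b c : B} (h : c = p * b - q * a) : a = qi * (p * b - c) := by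
  rw [h, sub_sub_cancel, ← mul_assoc, h2, one_mul]

/-- commutation -/
lemma seq_comm (y : B) (hp : y * p = p * y) (hq : y * q = q * y) (a : ℤ → B)
    (hrec : ∀ n, a (n + 2) = p * a (n + 1) - q * a n) (h1 : q * qi = 1) (h2 : qi * q = 1)
    (h0 : y * a 0 = a 0 * y) (h1' : y * a 1 = a 1 * y) (n : ℤ) : y * a n = a n * y := by
  have hqi : y * qi = qi * y := by
    calc y * qi = (qi * q) * (y * qi) := by rw [h2, one_mul]
      _ = qi * ((q * y) * qi) := by noncomm_ring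
      _ = qi * (y * (q * qi)) := by rw [← hq]; noncomm_ring
      _ = qi * y := by rw [h1, mul_one]
  refine zind (fun n => y * a n = a n * y) h0 h1' ?_ ?_ n
  · intro n ha hb
    rw [hrec, mul_sub, sub_mul, ← mul_assoc, ← mul_assoc, hp, hq, mul_assoc, mul_assoc, ha, hb]
    noncomm_ring
  · intro n hb hc
    rw [back p q qi h2 (hrec n), ← mul_assoc, hqi, mul_assoc, mul_assoc, mul_sub, sub_mul,
      ← mul_assoc, hp, mul_assoc, hb, hc]
    noncomm_ring

variable (hpq : p * q = q * p) (hdd : dp * dq = dq * dp)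
  (hpp : dp * p = p * dp + 1) (hpq' : dp * q = q * dp) (hqp : dq * p = p * dq)
  (hqq : dq * q = q * dq + 1)

include hpq in
lemma PZ_comm_p (n : ℤ) : p * PZ p q qi h1 h2 n = PZ p q qi h1 h2 n * p :=
  seq_comm p q qi p rfl hpq _ (PZ_rec p q qi h1 h2) h1 h2
    (by rw [PZ_zero, mul_two, two_mul]) (by rw [PZ_one]) n

include hpq in
lemma PZ_comm_q (n : ℤ) : q * PZ p q qi h1 h2 n = PZ p q qi h1 h2 n * q :=
  seq_comm p q qi q hpq.symm rfl _ (PZ_rec p q qi h1 h2) h1 h2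
    (by rw [PZ_zero, mul_two, two_mul]) (by rw [PZ_one, hpq]) n

include hpq in
lemma QZ_comm_p (n : ℤ) : p * QZ p q qi h1 h2 n = QZ p q qi h1 h2 n * p :=
  seq_comm p q qi p rfl hpq _ (QZ_rec p q qi h1 h2) h1 h2
    (by rw [QZ_zero]) (by rw [QZ_one, two_mul, mul_add, add_mul, hpq]) n

include hpq in
lemma QZ_comm_q (n : ℤ) : q * QZ p q qi h1 h2 n = QZ p q qi h1 h2 n * q :=
  seq_comm p q qi q hpq.symm rfl _ (QZ_rec p q qi h1 h2) h1 h2
    (by rw [QZ_zero, hpq]) (by rw [QZ_one, two_mul, mul_add, add_mul]) n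

include hpq hpp hqp in
lemma XZ_p (n : ℤ) : XZ p q qi h1 h2 dp dq n * p =
    p * XZ p q qi h1 h2 dp dq n + PZ p q qi h1 h2 n := by
  have e1 := PZ_comm_p p q qi h1 h2 hpq n
  have e2 := QZ_comm_p p q qi h1 h2 hpq n
  rw [XZ, add_mul, mul_assoc, mul_assoc, hpp, hqp, mul_add, mul_add, ← mul_assoc, ← mul_assoc,
    ← e1, ← e2]
  noncomm_ring

include hpq hpq' hqq in
lemma XZ_q (n : ℤ) : XZ p q qi h1 h2 dp dq n * q =
    q * XZ p q qi h1 h2 dp dq n + QZ p q qi h1 h2 n := by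
  have e1 := PZ_comm_q p q qi h1 h2 hpq n
  have e2 := QZ_comm_q p q qi h1 h2 hpq n
  rw [XZ, add_mul, mul_assoc, mul_assoc, hqq, hpq', mul_add, mul_add, ← mul_assoc, ← mul_assoc,
    ← e1, ← e2]
  noncomm_ring

include hpq in
lemma XZ_id (n m : ℤ) : PZ p q qi h1 h2 m * XZ p q qi h1 h2 dp dq (n + 1) -
    QZ p q qi h1 h2 m * XZ p q qi h1 h2 dp dq n =
    2 * XZ p q qi h1 h2 dp dq (m + n + 1) - p * XZ p q qi h1 h2 dp dq (m + n) := by
  set X := XZ p q qi h1 h2 dp dq with hX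
  set P := PZ p q qi h1 h2 with hP
  set Q := QZ p q qi h1 h2 with hQ
  have hXr : ∀ n, X (n + 2) = p * X (n + 1) - q * X n := XZ_rec p q qi h1 h2 dp dq
  have hPr : ∀ n, P (n + 2) = p * P (n + 1) - q * P n := PZ_rec p q qi h1 h2
  have hQr : ∀ n, Q (n + 2) = p * Q (n + 1) - q * Q n := QZ_rec p q qi h1 h2
  -- the difference satisfies the recurrence
  let G : ℤ → B := fun m => P m * X (n + 1) - Q m * X n - (2 * X (m + n + 1) - p * X (m + n))
  have hG : ∀ m, G (m + 2) = p * G (m + 1) - q * G m := by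
    intro m
    simp only [G]
    rw [hPr, hQr, show m + 2 + n + 1 = (m + n + 1) + 2 by ring, show m + 2 + n = (m + n) + 2 by ring,
      hXr, hXr, show m + 1 + n + 1 = m + n + 1 + 1 by ring, show m + 1 + n = m + n + 1 by ring]
    have e3 : ∀ a : B, q * (p * a) = p * (q * a) := fun a => by
      rw [← mul_assoc, ← hpq, mul_assoc]
    simp only [mul_sub, sub_mul, two_mul, mul_add]
    simp only [mul_assoc, e3]
    abel
  have hG0 : G 0 = 0 := by
    simp only [G]
    rw [show P 0 = 2 from PZ_zero p q qi h1 h2, show Q 0 = p from QZ_zero p q qi h1 h2, zero_add,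
      sub_self]
  have hG1 : G 1 = 0 := by
    simp only [G]
    rw [show P 1 = p from PZ_one p q qi h1 h2, show Q 1 = 2 * q from QZ_one p q qi h1 h2,
      show 1 + n + 1 = n + 2 by ring, show 1 + n = n + 1 by ring, hXr]
    noncomm_ring
  have hall : ∀ m, G m = 0 := by
    intro m
    refine zind (fun m => G m = 0) hG0 hG1 ?_ ?_ m
    · intro n ha hb
      show G (n + 2) = 0
      rw [hG, ha, hb]; simp
    · intro n hb hc
      show G n = 0
      rw [back p q qi h2 (hG n), hb, hc]; simp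
  exact sub_eq_zero.1 (hall m)

include hpq hpp hpq' hqp hqq in
lemma XZ_three (m n : ℤ) :
    XZ p q qi h1 h2 dp dq m * XZ p q qi h1 h2 dp dq (n + 2) -
      XZ p q qi h1 h2 dp dq (n + 2) * XZ p q qi h1 h2 dp dq m -
      ((((n + 2 : ℤ) : ℂ) - m) • XZ p q qi h1 h2 dp dq (m + (n + 2) - 1)) =
    p * (XZ p q qi h1 h2 dp dq m * XZ p q qi h1 h2 dp dq (n + 1) -
      XZ p q qi h1 h2 dp dq (n + 1) * XZ p q qi h1 h2 dp dq m -
      ((((n + 1 : ℤ) : ℂ) - m) • XZ p q qi h1 h2 dp dq (m + (n + 1) - 1))) -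
    q * (XZ p q qi h1 h2 dp dq m * XZ p q qi h1 h2 dp dq n -
      XZ p q qi h1 h2 dp dq n * XZ p q qi h1 h2 dp dq m -
      ((((n : ℤ) : ℂ) - m) • XZ p q qi h1 h2 dp dq (m + n - 1))) := by
  have hXp := XZ_p p q qi h1 h2 dp dq hpq hpp hqp m
  have hXq := XZ_q p q qi h1 h2 dp dq hpq hpq' hqq m
  have hid := XZ_id p q qi h1 h2 dp dq hpq n m
  set X := XZ p q qi h1 h2 dp dq with hX
  have hXr : ∀ n, X (n + 2) = p * X (n + 1) - q * X n := XZ_rec p q qi h1 h2 dp dq
  have e1 : X m * X (n + 2) - X (n + 2) * X m = PZ p q qi h1 h2 m * X (n + 1) -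
      QZ p q qi h1 h2 m * X n +
      p * (X m * X (n + 1) - X (n + 1) * X m) - q * (X m * X n - X n * X m) := by
    rw [hXr, mul_sub, ← mul_assoc, ← mul_assoc, hXp, hXq]
    noncomm_ring
  rw [e1, hid]
  rw [show m + (n + 2) - 1 = m + n - 1 + 2 by ring, show m + (n + 1) - 1 = m + n - 1 + 1 by ring,
    show m + n + 1 = m + n - 1 + 2 by ring, show m + n = m + n - 1 + 1 by ring]
  rw [show m + n - 1 + 1 - 1 + 2 = m + n - 1 + 2 by ring,
    show m + n - 1 + 1 - 1 + 1 = m + n - 1 + 1 by ring,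
    show m + n - 1 + 1 - 1 = m + n - 1 by ring]
  rw [hXr]
  have e5 : (2 : B) * (p * X (m + n - 1 + 1) - q * X (m + n - 1)) =
    (2 : ℂ) • (p * X (m + n - 1 + 1) - q * X (m + n - 1)) := by
    rw [two_mul, two_smul]
  rw [e5]
  simp only [mul_sub, mul_smul_comm]
  push_cast
  module

include hpq hdd hpp hpq' hqp hqq in
lemma XZ_bracket (m n : ℤ) :
    XZ p q qi h1 h2 dp dq m * XZ p q qi h1 h2 dp dq n -
      XZ p q qi h1 h2 dp dq n * XZ p q qi h1 h2 dp dq m =
      ((n : ℂ) - m) • XZ p q qi h1 h2 dp dq (m + n - 1) := by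
  set X := XZ p q qi h1 h2 dp dq with hX
  let H : ℤ → ℤ → B := fun m n => X m * X n - X n * X m - (((n : ℂ) - m) • X (m + n - 1))
  have hrec : ∀ m n, H m (n + 2) = p * H m (n + 1) - q * H m n := by
    intro m n
    exact XZ_three p q qi h1 h2 dp dq hpq hpp hpq' hqp hqq m n
  have two : ∀ m, H m 0 = 0 → H m 1 = 0 → ∀ n, H m n = 0 := by
    intro m h0 h1' n
    refine zind (fun n => H m n = 0) h0 h1' ?_ ?_ n
    · intro n ha hb
      show H m (n + 2) = 0
      rw [hrec, ha, hb]; simp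
    · intro n hb hc
      show H m n = 0
      rw [back p q qi h2 (hrec m n), hb, hc]; simp
  have anti : ∀ m n, H m n = 0 → H n m = 0 := by
    intro m n h
    have : H n m = - H m n := by
      simp only [H]
      rw [add_comm n m]
      have : ((m : ℂ) - n) = - ((n : ℂ) - m) := by ring
      rw [this, neg_smul]
      abel
    rw [this, h, neg_zero]
  have h00 : H 0 0 = 0 := by simp [H]
  have h11 : H 1 1 = 0 := by simp [H]
  have h01 : H 0 1 = 0 := by
    have e := lucX_bracket p q dp dq hpq hdd hpp hpq' hqp hqq 0 1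
    have x0 : X 0 = lucX p q dp dq 0 := by
      rw [hX, XZ, PZ_zero, QZ_zero]; rfl
    have x1 : X 1 = lucX p q dp dq 1 := by
      rw [hX, XZ, PZ_one, QZ_one]; rfl
    show X 0 * X 1 - X 1 * X 0 - ((((1 : ℤ) : ℂ) - ((0 : ℤ) : ℂ)) • X (0 + 1 - 1)) = 0
    rw [show (0 : ℤ) + 1 - 1 = 0 by norm_num, x0, x1, e]
    simp
  have hn0 := two 0 h00 h01
  have hn1 := two 1 (anti 0 1 h01) h11
  exact sub_eq_zero.1 (two m (anti 0 m (hn0 m)) (anti 1 m (hn1 m)) n)

/-- The linear map `f ↦ φ(f∂)`. -/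
def ZL : ℂ[T;T⁻¹] →ₗ[ℂ] B :=
  (AddMonoidAlgebra.basis ℤ ℂ).constr ℂ (XZ p q qi h1 h2 dp dq)

lemma ZL_T (n : ℤ) : ZL p q qi h1 h2 dp dq (T n) = XZ p q qi h1 h2 dp dq n := constrT _ n

include hpq hdd hpp hpq' hqp hqq in
lemma ZL_bracket (f g : ℂ[T;T⁻¹]) :
    ZL p q qi h1 h2 dp dq f * ZL p q qi h1 h2 dp dq g -
      ZL p q qi h1 h2 dp dq g * ZL p q qi h1 h2 dp dq f =
      ZL p q qi h1 h2 dp dq (f * derL g - g * derL f) := by
  induction f using LaurentPolynomial.induction_on' with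
  | add f f' hf hf' =>
    have e1 : (f + f') * derL g - g * derL (f + f') =
      (f * derL g - g * derL f) + (f' * derL g - g * derL f') := by
      rw [map_add]; ring
    rw [e1, map_add, map_add, ← hf, ← hf']
    noncomm_ring
  | C_mul_T m a =>
    induction g using LaurentPolynomial.induction_on' with
    | add g g' hg hg' =>
      have e1 : C a * T m * derL (g + g') - (g + g') * derL (C a * T m) =
          (C a * T m * derL g - g * derL (C a * T m)) +
          (C a * T m * derL g' - g' * derL (C a * T m)) := by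
        rw [map_add]; ring
      rw [e1, map_add, map_add, ← hg, ← hg']
      noncomm_ring
    | C_mul_T n b =>
      have e : ∀ (n : ℤ) (b : ℂ), derL (C b * T n) = C (b * n) * T (n - 1) := by
        intro n b
        rw [← LaurentPolynomial.smul_eq_C_mul, Derivation.map_smul, derL_T, smul_smul,
          LaurentPolynomial.smul_eq_C_mul]
      have e1 : (C a * T m * derL (C b * T n) - C b * T n * derL (C a * T m) : ℂ[T;T⁻¹]) =
          C (a * b * ((n : ℂ) - m)) * T (m + n - 1) := by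
        rw [e, e]
        have e2 : (C a * T m * (C (b * n) * T (n - 1)) : ℂ[T;T⁻¹]) =
            C (a * b * n) * T (m + n - 1) := by
          rw [map_mul, map_mul, map_mul, add_sub_assoc, LaurentPolynomial.T_add]; ring
        have e3 : (C b * T n * (C (a * m) * T (m - 1)) : ℂ[T;T⁻¹]) =
            C (a * b * m) * T (m + n - 1) := by
          rw [map_mul, map_mul, map_mul, show m + n - 1 = n + (m - 1) by ring,
            LaurentPolynomial.T_add]; ring
        rw [e2, e3, ← sub_mul, ← map_sub]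
        congr 2
        ring
      rw [e1, ZL, constrL, constrL, constrL, smul_mul_smul_comm,
        smul_mul_smul_comm, mul_comm b a, ← smul_sub,
        XZ_bracket p q qi h1 h2 dp dq hpq hdd hpp hpq' hqp hqq, smul_smul]

end Lucas

/-- The Lie homomorphism `W → Ã_2`. -/
def phiLLie : WL →ₗ⁅ℂ⁆ WeylL 2 where
  toFun D := ZL (WeylL.t 0) (WeylL.t 1) (WeylL.s 1) (WeylL.ts 1) (WeylL.st 1) (WeylL.d 0)
    (WeylL.d 1) (D (T 1))
  map_add' D D' := by rw [Derivation.add_apply, map_add]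
  map_smul' c D := by
    rw [Derivation.smul_apply, RingHom.id_apply]
    exact LinearMap.map_smul _ _ _
  map_lie' := by
    intro D D'
    rw [LieRing.of_associative_ring_bracket]
    rw [ZL_bracket _ _ _ _ _ _ _ (WeylL.tt 0 1) (WeylL.dd 0 1)
      (by simpa using WeylL.dt (k := 2) 0 0)
      (by simpa using WeylL.dt (k := 2) 0 1) (by simpa using WeylL.dt (k := 2) 1 0)
      (by simpa using WeylL.dt (k := 2) 1 1)]
    congr 1
    rw [Derivation.commutator_apply, WL_apply D (D' _), WL_apply D' (D _)]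
    ring

/-- The homomorphism `φ : U(W) → Ã_2`. -/
def phiL : UniversalEnvelopingAlgebra ℂ WL →ₐ[ℂ] WeylL 2 :=
  UniversalEnvelopingAlgebra.lift ℂ phiLLie

/-- `Ã_2` acting on `K` through the symmetric coordinates. -/
def EcL : WeylL 2 →ₐ[ℂ] CC := WeylL.lift ![cp, cq] ![cpi, cqi] ![cdp, cdq]
  (by
    intro i j
    fin_cases i <;> fin_cases j
    · rfl
    · exact cpq
    · exact cpq.symm
    · rfl)
  (by
    intro i j
    fin_cases i <;> fin_cases j
    · rfl
    · exact cdpq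
    · exact cdpq.symm
    · rfl)
  (by
    intro i j
    fin_cases i <;> fin_cases j
    · simpa using cdpp
    · simpa using cdpq'
    · simpa using cdqp
    · simpa using cdqq)
  (by
    intro j
    fin_cases j
    · exact cpcpi
    · exact cqcqi)
  (by
    intro j
    fin_cases j
    · exact cpicp
    · exact cqicq)

lemma EcL_t0 : EcL (WeylL.t 0) = cp := WeylL.lift_t _ _ _ _ _ _ _ _ 0
lemma EcL_t1 : EcL (WeylL.t 1) = cq := WeylL.lift_t _ _ _ _ _ _ _ _ 1
lemma EcL_d0 : EcL (WeylL.d 0) = cdp := WeylL.lift_d _ _ _ _ _ _ _ _ 0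
lemma EcL_d1 : EcL (WeylL.d 1) = cdq := WeylL.lift_d _ _ _ _ _ _ _ _ 1

lemma EcL_XZ (n : ℕ) : EcL (XZ (WeylL.t 0) (WeylL.t 1) (WeylL.s 1) (WeylL.ts 1) (WeylL.st 1)
    (WeylL.d 0) (WeylL.d 1) n) = lucX cp cq cdp cdq n := by
  have key : ∀ n : ℕ, (EcL (XZ (WeylL.t 0) (WeylL.t 1) (WeylL.s 1) (WeylL.ts 1) (WeylL.st 1)
      (WeylL.d 0) (WeylL.d 1) n) = lucX cp cq cdp cdq n) ∧
      (EcL (XZ (WeylL.t 0) (WeylL.t 1) (WeylL.s 1) (WeylL.ts 1) (WeylL.st 1)
      (WeylL.d 0) (WeylL.d 1) (n + 1 : ℕ)) = lucX cp cq cdp cdq (n + 1)) := by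
    intro n
    induction n with
    | zero =>
      constructor
      · rw [Nat.cast_zero, XZ, PZ_zero, QZ_zero, map_add, map_mul, map_mul, EcL_t0, EcL_d0, EcL_d1,
          map_ofNat]
        rfl
      · rw [zero_add, Nat.cast_one, XZ, PZ_one, QZ_one, map_add, map_mul, map_mul, map_mul, EcL_t0,
          EcL_t1, EcL_d0, EcL_d1, map_ofNat]
        rfl
    | succ n ih =>
      refine ⟨ih.2, ?_⟩
      have e := XZ_rec (WeylL.t 0 : WeylL 2) (WeylL.t 1) (WeylL.s 1) (WeylL.ts 1) (WeylL.st 1)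
        (WeylL.d 0) (WeylL.d 1) (n : ℤ)
      rw [show ((n + 1 + 1 : ℕ) : ℤ) = (n : ℤ) + 2 by push_cast; ring, e, map_sub, map_mul,
        map_mul, EcL_t0, EcL_t1, ih.1, show (n : ℤ) + 1 = ((n + 1 : ℕ) : ℤ) by push_cast; ring,
        ih.2]
      exact (lucX_rec cp cq cdp cdq n).symm
  exact (key n).1

/-- `f∂ ∈ W`. -/
def fd (f : ℂ[T;T⁻¹]) : WL := f • derL

lemma fd_T (f : ℂ[T;T⁻¹]) : fd f (T 1) = f := by
  rw [fd, Derivation.smul_apply, derL_T]
  simp

lemma EcL_phiL (n : ℕ) : inc (EcL (phiL (UniversalEnvelopingAlgebra.ι ℂ (fd (T (n : ℤ)))))) =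
    a₁ ^ n * b₁ + a₂ ^ n * b₂ := by
  have h1 : phiL (UniversalEnvelopingAlgebra.ι ℂ (fd (T (n : ℤ)))) =
      XZ (WeylL.t 0) (WeylL.t 1) (WeylL.s 1) (WeylL.ts 1) (WeylL.st 1)
        (WeylL.d 0) (WeylL.d 1) n := by
    rw [phiL, UniversalEnvelopingAlgebra.lift_ι_apply]
    have h0 : phiLLie (fd (T (n : ℤ))) = ZL (WeylL.t 0) (WeylL.t 1) (WeylL.s 1) (WeylL.ts 1)
      (WeylL.st 1) (WeylL.d 0) (WeylL.d 1) (fd (T (n : ℤ)) (T 1)) := rfl
    rw [h0, fd_T, ZL_T]
  rw [h1, EcL_XZ, lucX_CC]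

lemma derL_iter (k m : ℕ) : derL^[k] (T (m : ℤ)) = (m.descFactorial k : ℂ) • T ((m : ℤ) - k) := by
  induction k with
  | zero => simp
  | succ k ih =>
    rw [Function.iterate_succ_apply', ih, Derivation.map_smul, derL_T, smul_smul,
      Nat.descFactorial_succ]
    rw [show (m : ℤ) - k - 1 = (m : ℤ) - (k + 1 : ℕ) by push_cast; ring]
    congr 1
    rcases le_or_gt k m with h | h
    · push_cast [Nat.cast_sub h]
      ring
    · rw [Nat.descFactorial_eq_zero_iff_lt.2 h]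
      simp

lemma divDer_T (m k : ℕ) : ((k.factorial : ℂ)⁻¹ • (derL^[k] (T (m : ℤ)))) =
    (m.choose k : ℂ) • (T (((m - k : ℕ) : ℤ)) : ℂ[T;T⁻¹]) := by
  rw [derL_iter, smul_smul, Nat.descFactorial_eq_factorial_mul_choose, Nat.cast_mul, ← mul_assoc,
    inv_mul_cancel₀, one_mul]
  · rcases le_or_gt k m with h | h
    · rw [Nat.cast_sub h]
    · rw [Nat.choose_eq_zero_of_lt h]
      simp
  · exact_mod_cast Nat.factorial_ne_zero k

/-- **Main theorem for `W`.** -/
theorem main2 : ∃ φ : UniversalEnvelopingAlgebra ℂ WL →ₐ[ℂ] WeylL 2,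
    ∀ (k : ℕ) (n : Fin k → ℕ),
      ¬ ∃ φbar : AUL n →+* WeylL 2, ∀ u, φ u = φbar (PsiL n u) := by
  refine ⟨phiL, ?_⟩
  rintro k n ⟨φbar, h⟩
  let Θ : AUL n →+* CC := (EcL : WeylL 2 →+* CC).comp φbar
  refine core_concrete (ι := Fin k) (fun j => Θ (AUL.mk n (WeylL.t j) 1)) ?_
    (fun j => Θ (AUL.mk n (WeylL.d j) 1)) n (fun j i => Θ (AUL.mk n 1 (vs n j i))) ?_
  · intro i j
    simp only [← map_mul, AUL.mk_mul, WeylL.tt i j]
  · intro m
    rw [← EcL_phiL m, h]
    congr 1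
    show Θ (PsiL n _) = _
    rw [PsiL, UniversalEnvelopingAlgebra.lift_ι_apply]
    show Θ (PsiLFun n _) = _
    rw [PsiLFun, map_sum]
    apply Finset.sum_congr rfl
    intro j _
    have hpow : ∀ m : ℕ, (evalL (WeylL.tU j : (WeylL k)ˣ)) (T (m : ℤ)) = WeylL.t j ^ m := by
      intro m
      rw [evalL_T, zpow_natCast, Units.val_pow_eq_pow_val, WeylL.tU_val]
    rw [fd_T, map_add, map_sum]
    congr 1
    · rw [← map_pow, ← map_mul, AUL.mk_pow, AUL.mk_mul, one_mul, hpow]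
    · apply Finset.sum_congr rfl
      intro i _
      rw [divDer_T, map_smul, hpow]
      rw [← map_pow, ← map_mul, AUL.mk_pow, AUL.mk_mul, one_mul, mul_one, ← map_natCast Θ,
        ← map_mul]
      congr 1
      rw [← nsmul_eq_mul, Nat.cast_smul_eq_nsmul, AUL.mk_nsmul]

end Q8.WF
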